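import Pool.Agent.Helper92_LCR.Poly1

/-!
# The bundle graph of the template by a table (module POLY, part 2)
-/

namespace Pool.Agent.LCR.H92

/-- kinds of vertices of the bundle graph -/
abbrev Kd : Type := VK ⊕ EK

section

variable (n m β : ℕ)

/-- ranges of the four indices -/
def z1 : Kd → ℕ
  | .inl τ => vsj m τ
  | .inr τ => esj m τ

/-- ranges of the four indices -/
def z2 : Kd → ℕ
  | .inl τ => vsx n τ
  | .inr τ => esx n τ

/-- ranges of the four indices -/
def z3 : Kd → ℕ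
  | .inl _ => 1
  | .inr τ => β ^ (tyK τ).a

/-- ranges of the four indices -/
def z4 : Kd → ℕ
  | .inl _ => 1
  | .inr τ => 2 * β ^ (tyK τ).c - 1

end

section

variable {n m : ℕ} (T : Fin m → Fin 3 → Fin n) (β : ℕ)

/-- vertices of the bundle graph -/
abbrev BT : Type := BV (tmpl T β)

variable {T β}

/-- kind -/
def kd : BT T β → Kd
  | .inl v => .inl (vk v)
  | .inr y => .inr (ek y.1)

/-- indices -/
def i1 : BT T β → ℕ
  | .inl v => vj v
  | .inr y => ej y.1

/-- indices -/
def i2 : BT T β → ℕ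
  | .inl v => vx v
  | .inr y => ex y.1

/-- indices -/
def i3 : BT T β → ℕ
  | .inl _ => 0
  | .inr y => y.2.1

/-- indices -/
def i4 : BT T β → ℕ
  | .inl _ => 0
  | .inr y => y.2.2

variable (T β)

theorem w_eq (τ : EK) (a : Fin (esj m τ)) (b : Fin (esx n τ)) :
    (tmpl T β).w (mkE τ a b) = β ^ (tyK τ).a := by
  show β ^ (ty (mkE τ a b)).a = _
  rw [ty_ek, ek_mk]

theorem q_eq (τ : EK) (a : Fin (esj m τ)) (b : Fin (esx n τ)) :
    2 * (tmpl T β).q (mkE τ a b) - 1 = 2 * β ^ (tyK τ).c - 1 := by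
  show 2 * β ^ (ty (mkE τ a b)).c - 1 = _
  rw [ty_ek, ek_mk]

/-- the vertex with given kind and indices -/
def mk : (τ : Kd) → Fin (z1 m τ) → Fin (z2 n τ) → Fin (z3 β τ) → Fin (z4 β τ) → BT T β
  | .inl τ, a, b, _, _ => .inl (mkV τ a b)
  | .inr τ, a, b, c, d => .inr ⟨mkE τ a b, Fin.cast (w_eq T β τ a b).symm c,
      Fin.cast (q_eq T β τ a b).symm d⟩

variable {T β}

theorem kd_mk (τ : Kd) (a : Fin (z1 m τ)) (b : Fin (z2 n τ)) (c : Fin (z3 β τ)) (d : Fin (z4 β τ)) :
    kd (mk T β τ a b c d) = τ := by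
  rcases τ with τ | τ
  · exact congrArg Sum.inl (vk_mk τ a b)
  · exact congrArg Sum.inr (ek_mk τ a b)

theorem i1_mk (τ : Kd) (a : Fin (z1 m τ)) (b : Fin (z2 n τ)) (c : Fin (z3 β τ)) (d : Fin (z4 β τ)) :
    i1 (mk T β τ a b c d) = a := by
  rcases τ with τ | τ
  · exact vj_mk τ a b
  · exact ej_mk τ a b

theorem i2_mk (τ : Kd) (a : Fin (z1 m τ)) (b : Fin (z2 n τ)) (c : Fin (z3 β τ)) (d : Fin (z4 β τ)) :
    i2 (mk T β τ a b c d) = b := by
  rcases τ with τ | τ
  · exact vx_mk τ a b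
  · exact ex_mk τ a b

theorem i3_mk (τ : Kd) (a : Fin (z1 m τ)) (b : Fin (z2 n τ)) (c : Fin (z3 β τ)) (d : Fin (z4 β τ)) :
    i3 (mk T β τ a b c d) = c := by
  rcases τ with τ | τ
  · exact (f1 c).symm
  · rfl

theorem i4_mk (τ : Kd) (a : Fin (z1 m τ)) (b : Fin (z2 n τ)) (c : Fin (z3 β τ)) (d : Fin (z4 β τ)) :
    i4 (mk T β τ a b c d) = d := by
  rcases τ with τ | τ
  · exact (f1 d).symm
  · rfl

theorem mk_surj (x : BT T β) : ∃ a b c d, mk T β (kd x) a b c d = x := by
  rcases x with v | ⟨e, c, d⟩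
  · obtain ⟨a, b, h⟩ := v_surj v
    exact ⟨a, b, ⟨0, Nat.one_pos⟩, ⟨0, Nat.one_pos⟩, congrArg Sum.inl h⟩
  · obtain ⟨a, b, h⟩ := e_surj e
    have hw : (tmpl T β).w e = β ^ (tyK (ek e)).a :=
      congrArg (fun t : Ty => β ^ t.a) (ty_ek (n := n) (m := m) e)
    have hq : 2 * (tmpl T β).q e - 1 = 2 * β ^ (tyK (ek e)).c - 1 :=
      congrArg (fun t : Ty => 2 * β ^ t.c - 1) (ty_ek (n := n) (m := m) e)
    refine ⟨a, b, Fin.cast hw c, Fin.cast hq d, congrArg Sum.inr ?_⟩
    refine Sigma.ext h ?_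
    have aux : ∀ (e' : TE n m) (he : e' = e) (c' : Fin ((tmpl T β).w e'))
        (d' : Fin (2 * (tmpl T β).q e' - 1)), c'.val = c.val → d'.val = d.val →
        HEq (c', d') (c, d) := by
      intro e' he c' d' h1 h2
      subst he
      have h3 : c' = c := Fin.ext h1
      have h4 : d' = d := Fin.ext h2
      rw [h3, h4]
    exact aux _ h _ _ rfl rfl

/-! ## Adjacency -/

/-- adjacency by kinds and indices -/
def AdjC (L : Fin 3 → ℕ → ℕ → Prop) (m β : ℕ) : Kd → ℕ → ℕ → ℕ → ℕ → Kd → ℕ → ℕ → ℕ → ℕ → Prop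
  | .inl _, _, _, _, _, .inl _, _, _, _, _ => False
  | .inl σ, j, x, _, _, .inr τ, j', x', _, k' =>
      (k' = 0 ∧ IncC L m (srcC τ) j' x' σ j x) ∨
      (k' + 1 = 2 * β ^ (tyK τ).c - 1 ∧ IncC L m (tgtC τ) j' x' σ j x)
  | .inr τ, j', x', _, k', .inl σ, j, x, _, _ =>
      (k' = 0 ∧ IncC L m (srcC τ) j' x' σ j x) ∨
      (k' + 1 = 2 * β ^ (tyK τ).c - 1 ∧ IncC L m (tgtC τ) j' x' σ j x)
  | .inr τ, j, x, i, k, .inr τ', j', x', i', k' =>
      τ = τ' ∧ j = j' ∧ x = x' ∧ i = i' ∧ (k + 1 = k' ∨ k' + 1 = k)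

theorem inr_node (S : Bund) (e : S.E) (i : Fin (S.w e)) (l : Fin (2 * S.q e - 1)) :
    (.inr ⟨e, i, l⟩ : BV S) = node S e i (l.val + 1) := by
  rw [node_mid e i (Nat.succ_pos _) (by have := l.isLt; omega)]
  rfl

theorem node_inr' (S : Bund) (e : S.E) (i : Fin (S.w e)) {k : ℕ} {f : S.E} {j : Fin (S.w f)}
    {l : Fin (2 * S.q f - 1)} (h : node S e i k = .inr ⟨f, j, l⟩) :
    e = f ∧ HEq i j ∧ k = l.val + 1 := by
  unfold node at h
  split_ifs at h with h1 h2
  have h3 := Sum.inr.inj h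
  have h4 := congrArg Sigma.fst h3
  dsimp only at h4
  subst h4
  simp only [Sigma.mk.injEq, heq_eq_eq, true_and, Prod.mk.injEq] at h3
  refine ⟨rfl, heq_of_eq h3.1, ?_⟩
  rw [← h3.2]
  dsimp only
  omega

theorem adj_vv (S : Bund) (v v' : S.V) : ¬ (BG S).Adj (.inl v) (.inl v') := by
  unfold BG
  rw [SimpleGraph.fromRel_adj]
  have key : ∀ (v v' : S.V) (e : S.E) (i : Fin (S.w e)) (k : ℕ), k < 2 * S.q e →
      .inl v = node S e i k → .inl v' = node S e i (k + 1) → False := by
    intro v v' e i k hk h1 h2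
    rcases Nat.eq_zero_or_pos k with rfl | h0
    · rw [node_mid e i (Nat.succ_pos _) (by omega)] at h2
      exact Sum.inl_ne_inr h2
    · rw [node_mid e i h0 hk] at h1
      exact Sum.inl_ne_inr h1
  rintro ⟨-, ⟨e, i, k, hk, h1, h2⟩ | ⟨e, i, k, hk, h1, h2⟩⟩
  · exact key _ _ e i k hk h1 h2
  · exact key _ _ e i k hk h1 h2

theorem adj_ve (S : Bund) (v : S.V) (e : S.E) (i : Fin (S.w e)) (l : Fin (2 * S.q e - 1)) :
    (BG S).Adj (.inl v) (.inr ⟨e, i, l⟩) ↔
      (l.val = 0 ∧ S.src e = v) ∨ (l.val + 1 = 2 * S.q e - 1 ∧ S.tgt e = v) := by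
  have hl := l.isLt
  unfold BG
  rw [SimpleGraph.fromRel_adj]
  constructor
  · rintro ⟨-, ⟨f, j, k, hk, h1, h2⟩ | ⟨f, j, k, hk, h1, h2⟩⟩
    · obtain ⟨rfl, hj, h3⟩ := node_inr' S f j h2.symm
      left
      have hk0 : k = 0 := by
        by_contra h0
        rw [node_mid f j (by omega) hk] at h1
        exact Sum.inl_ne_inr h1
      subst hk0
      rw [node_zero] at h1
      exact ⟨by omega, (Sum.inl.inj h1).symm⟩
    · obtain ⟨rfl, hj, h3⟩ := node_inr' S f j h1.symm
      right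
      have hk0 : k + 1 = 2 * S.q f := by
        by_contra h0
        rw [node_mid f j (by omega) (by omega)] at h2
        exact Sum.inl_ne_inr h2
      rw [hk0, node_last f j (by omega)] at h2
      exact ⟨by omega, (Sum.inl.inj h2).symm⟩
  · rintro (⟨h1, h2⟩ | ⟨h1, h2⟩)
    · refine ⟨Sum.inl_ne_inr, Or.inl ⟨e, i, 0, by omega, ?_, ?_⟩⟩
      · rw [node_zero, h2]
      · rw [inr_node, h1]
    · refine ⟨Sum.inl_ne_inr, Or.inr ⟨e, i, l.val + 1, by omega, inr_node S e i l, ?_⟩⟩
      have : l.val + 1 + 1 = 2 * S.q e := by omega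
      rw [this, node_last e i (by omega), h2]

theorem adj_ee (S : Bund) (e : S.E) (i : Fin (S.w e)) (l : Fin (2 * S.q e - 1)) (f : S.E)
    (j : Fin (S.w f)) (r : Fin (2 * S.q f - 1)) :
    (BG S).Adj (.inr ⟨e, i, l⟩) (.inr ⟨f, j, r⟩) ↔
      e = f ∧ i.val = j.val ∧ (l.val + 1 = r.val ∨ r.val + 1 = l.val) := by
  have hl := l.isLt
  have hr := r.isLt
  unfold BG
  rw [SimpleGraph.fromRel_adj]
  constructor
  · rintro ⟨-, ⟨g, c, k, hk, h1, h2⟩ | ⟨g, c, k, hk, h1, h2⟩⟩
    · obtain ⟨rfl, hj, h3⟩ := node_inr' S g c h1.symm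
      obtain ⟨rfl, hj', h4⟩ := node_inr' S g c h2.symm
      refine ⟨rfl, ?_, Or.inl (by omega)⟩
      rw [← eq_of_heq hj, ← eq_of_heq hj']
    · obtain ⟨rfl, hj, h3⟩ := node_inr' S g c h1.symm
      obtain ⟨rfl, hj', h4⟩ := node_inr' S g c h2.symm
      refine ⟨rfl, ?_, Or.inr (by omega)⟩
      rw [← eq_of_heq hj, ← eq_of_heq hj']
  · rintro ⟨rfl, hij, h⟩
    have hij' : i = j := Fin.ext hij
    subst hij'
    constructor
    · intro hh
      simp only [Sum.inr.injEq, Sigma.mk.injEq, heq_eq_eq, true_and, Prod.mk.injEq] at hh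
      rw [hh] at h
      omega
    · rcases h with h | h
      · left
        refine ⟨e, i, l.val + 1, by omega, inr_node S e i l, ?_⟩
        rw [h]
        exact inr_node S e i r
      · right
        refine ⟨e, i, r.val + 1, by omega, inr_node S e i r, ?_⟩
        rw [h]
        exact inr_node S e i l

theorem adj_iff (x y : BT T β) : (BG (tmpl T β)).Adj x y ↔
    AdjC (Lk T) m β (kd x) (i1 x) (i2 x) (i3 x) (i4 x) (kd y) (i1 y) (i2 y) (i3 y) (i4 y) := by
  rcases x with v | ⟨e, i, l⟩ <;> rcases y with v' | ⟨f, j, r⟩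
  · exact iff_of_false (adj_vv _ v v') (fun h => h)
  · have hq : (tmpl T β).q f = β ^ (tyK (ek f)).c :=
      congrArg (fun t : Ty => β ^ t.c) (ty_ek (n := n) (m := m) f)
    exact (adj_ve _ _ _ _ _).trans (or_congr (and_congr Iff.rfl (src_iff T f v)) (and_congr
      (Iff.of_eq (congrArg (fun t : ℕ => r.val + 1 = 2 * t - 1) hq)) (tgt_iff T f v)))
  · have hq : (tmpl T β).q e = β ^ (tyK (ek e)).c :=
      congrArg (fun t : Ty => β ^ t.c) (ty_ek (n := n) (m := m) e)
    rw [SimpleGraph.adj_comm]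
    exact (adj_ve _ _ _ _ _).trans (or_congr (and_congr Iff.rfl (src_iff T e v')) (and_congr
      (Iff.of_eq (congrArg (fun t : ℕ => l.val + 1 = 2 * t - 1) hq)) (tgt_iff T e v')))
  · rw [adj_ee]
    simp only [AdjC, kd, i1, i2, i3, i4]
    constructor
    · rintro ⟨rfl, h1, h2⟩
      exact ⟨rfl, rfl, rfl, h1, h2⟩
    · rintro ⟨h1, h2, h3, h4, h5⟩
      exact ⟨e_ext h1 h2 h3, h4, h5⟩

/-! ## The list of all vertices -/

/-- all kinds -/
def kds : List Kd :=
  [.inl .t, .inl .b, .inl .A, .inl .B, .inl (.FA false), .inl (.FA true), .inl (.FB false),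
    .inl (.FB true), .inl .u, .inl .w, .inl (.z false), .inl (.z true),
    .inr .lo, .inr .hi, .inr .seg, .inr .up, .inr (.flo false), .inr (.flo true),
    .inr (.fhi false), .inr (.fhi true), .inr (.fseg false), .inr (.fseg true),
    .inr (.fup false), .inr (.fup true), .inr (.wall false), .inr (.wall true), .inr .tie,
    .inr (.ftie false), .inr (.ftie true), .inr .wtie, .inr (.blk false false),
    .inr (.blk false true), .inr (.blk true false), .inr (.blk true true), .inr (.con false),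
    .inr (.con true)]

theorem mem_kds (τ : Kd) : τ ∈ kds := by
  rcases τ with τ | τ
  · cases τ with
    | FA s => cases s <;> simp [kds]
    | FB s => cases s <;> simp [kds]
    | z s => cases s <;> simp [kds]
    | _ => simp [kds]
  · cases τ with
    | flo s => cases s <;> simp [kds]
    | fhi s => cases s <;> simp [kds]
    | fseg s => cases s <;> simp [kds]
    | fup s => cases s <;> simp [kds]
    | wall s => cases s <;> simp [kds]
    | ftie s => cases s <;> simp [kds]
    | blk s k => cases s <;> cases k <;> simp [kds]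
    | con s => cases s <;> simp [kds]
    | _ => simp [kds]

theorem nodup_kds : kds.Nodup := by decide

theorem nodup_key {α β' γ : Type} (l : List α) (hl : l.Nodup) (f : α → List β')
    (hf : ∀ a ∈ l, (f a).Nodup) (key : β' → γ) (g : α → γ) (hg : Function.Injective g)
    (hk : ∀ a, ∀ x ∈ f a, key x = g a) : (l.flatMap f).Nodup := by
  rw [List.nodup_flatMap]
  refine ⟨hf, ?_⟩
  refine hl.imp ?_
  intro a b hab
  rw [Function.onFun, List.disjoint_left]
  intro x hx hx'
  exact hab (hg ((hk a x hx).symm.trans (hk b x hx')))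

variable (T β)

/-- the vertices of a kind with three given indices -/
def row3 (τ : Kd) (a : Fin (z1 m τ)) (b : Fin (z2 n τ)) (c : Fin (z3 β τ)) : List (BT T β) :=
  (List.finRange (z4 β τ)).map (fun d => mk T β τ a b c d)

/-- the vertices of a kind with two given indices -/
def row2 (τ : Kd) (a : Fin (z1 m τ)) (b : Fin (z2 n τ)) : List (BT T β) :=
  (List.finRange (z3 β τ)).flatMap (fun c => row3 T β τ a b c)

/-- the vertices of a kind with given first index -/
def row1 (τ : Kd) (a : Fin (z1 m τ)) : List (BT T β) :=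
  (List.finRange (z2 n τ)).flatMap (fun b => row2 T β τ a b)

/-- the vertices of a kind -/
def row0 (τ : Kd) : List (BT T β) := (List.finRange (z1 m τ)).flatMap (fun a => row1 T β τ a)

/-- all vertices -/
def verts : List (BT T β) := kds.flatMap (fun τ => row0 T β τ)

variable {T β}

theorem mem_row3 {τ : Kd} {a : Fin (z1 m τ)} {b : Fin (z2 n τ)} {c : Fin (z3 β τ)} {x : BT T β} :
    x ∈ row3 T β τ a b c ↔ ∃ d, mk T β τ a b c d = x := by
  simp [row3]

theorem mem_row2 {τ : Kd} {a : Fin (z1 m τ)} {b : Fin (z2 n τ)} {x : BT T β} :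
    x ∈ row2 T β τ a b ↔ ∃ c d, mk T β τ a b c d = x := by
  simp [row2, mem_row3]

theorem mem_row1 {τ : Kd} {a : Fin (z1 m τ)} {x : BT T β} :
    x ∈ row1 T β τ a ↔ ∃ b c d, mk T β τ a b c d = x := by
  simp [row1, mem_row2]

theorem mem_row0 {τ : Kd} {x : BT T β} :
    x ∈ row0 T β τ ↔ ∃ a b c d, mk T β τ a b c d = x := by
  simp [row0, mem_row1]

theorem mem_verts (x : BT T β) : x ∈ verts T β := by
  unfold verts
  rw [List.mem_flatMap]
  exact ⟨kd x, mem_kds _, mem_row0.2 (mk_surj x)⟩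

theorem nodup_verts : (verts T β).Nodup := by
  refine nodup_key _ nodup_kds _ (fun τ _ => ?_) kd id (fun _ _ h => h) (fun τ x hx => ?_)
  · refine nodup_key _ (List.nodup_finRange _) _ (fun a _ => ?_) i1 Fin.val Fin.val_injective
      (fun a x hx => ?_)
    · refine nodup_key _ (List.nodup_finRange _) _ (fun b _ => ?_) i2 Fin.val Fin.val_injective
        (fun b x hx => ?_)
      · refine nodup_key _ (List.nodup_finRange _) _ (fun c _ => ?_) i3 Fin.val Fin.val_injective
          (fun c x hx => ?_)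
        · refine (List.nodup_finRange _).map ?_
          intro d d' h
          have h1 := congrArg i4 h
          rw [i4_mk, i4_mk] at h1
          exact Fin.ext h1
        · obtain ⟨d, rfl⟩ := mem_row3.1 hx
          exact i3_mk _ _ _ _ _
      · obtain ⟨c, d, rfl⟩ := mem_row2.1 hx
        exact i2_mk _ _ _ _ _
    · obtain ⟨b, c, d, rfl⟩ := mem_row1.1 hx
      exact i1_mk _ _ _ _ _
  · obtain ⟨a, b, c, d, rfl⟩ := mem_row0.1 hx
    exact kd_mk _ _ _ _ _

/-- the graph of the instance on an initial segment of the natural numbers -/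
def grB (T : Fin m → Fin 3 → Fin n) (β : ℕ) : Σ N : ℕ, SimpleGraph (Fin N) :=
  ⟨(verts T β).length, (BG (tmpl T β)).comap (verts T β).get⟩

theorem grB_iso (T : Fin m → Fin 3 → Fin n) (β : ℕ) :
    Nonempty ((grB T β).2 ≃g BG (tmpl T β)) := by
  classical
  exact ⟨SimpleGraph.Iso.comap (nodup_verts.getEquivOfForallMemList _ mem_verts) _⟩

open Classical in
theorem encGraph_grB (T : Fin m → Fin 3 → Fin n) (β : ℕ) :
    encGraph (grB T β) = (verts T β).flatMap (fun x => .row :: (verts T β).map (fun y =>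
      if (BG (tmpl T β)).Adj x y then .one else .zero)) := by
  have h : (List.finRange (verts T β).length).map (verts T β).get = verts T β :=
    List.map_get_finRange _
  unfold encGraph grB
  simp only
  conv_rhs => rw [← h, List.flatMap_map]
  refine List.flatMap_congr (fun i _ => ?_)
  rw [List.map_map]
  rfl

theorem verts_flatMap {γ : Type} (g : BT T β → List γ) :
    (verts T β).flatMap g = kds.flatMap (fun τ => (List.finRange (z1 m τ)).flatMap (fun a =>
      (List.finRange (z2 n τ)).flatMap (fun b => (List.finRange (z3 β τ)).flatMap (fun c =>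
        (List.finRange (z4 β τ)).flatMap (fun d => g (mk T β τ a b c d)))))) := by
  unfold verts row0 row1 row2 row3
  simp only [List.flatMap_assoc, List.flatMap_map]

end

end Pool.Agent.LCR.H92
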