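import Pool.Agent.Helper82_SO.Kpoly2
import Pool.Agent.Helper92_LCR.Poly2

/-!
# The reduction is computable in polynomial time (module POLY, part 3)
-/

namespace Pool.Agent.LCR.H92

open Pool.Agent.Helper53_CookLevin Pool.Agent.Helper53_Chan Turing
open Pool.Agent.Common_CookLevin (encodeCNF CNF CNFLetter)
open Pool.Agent.Helper32_Poly
open Pool.Agent.SO (instOf instF triples)
open Pool.Agent.SO.H82 (lookF trW encTs gen_look gen_trW isE2 comp look_encTs cnt_encTs Small
  small_triples trW_map finRange_flatMap)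

/-! ## Tests -/

theorem tnot {r : ℕ} {P : (Fin r → List A) → Prop} (hP : Test r P) : Test r (fun ρ => ¬ P ρ) := by
  classical
  refine ⟨fun ρ => if P ρ then [A.tick] else [], Test.ite hP (PGen.const _) (PGen.const _),
    fun ρ => ?_⟩
  by_cases h : P ρ <;> simp [h]

theorem tor {r : ℕ} {P Q : (Fin r → List A) → Prop} (hP : Test r P) (hQ : Test r Q) :
    Test r (fun ρ => P ρ ∨ Q ρ) :=
  Test.congr (tnot (Test.and (tnot hP) (tnot hQ))) (fun ρ => by tauto)

theorem tcst {r : ℕ} (p : Prop) : Test r (fun _ : Fin r → List A => p) := by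
  classical
  refine ⟨fun _ => if p then [] else [A.tick], PGen.const _, fun ρ => ?_⟩
  by_cases h : p <;> simp [h]

/-- lookup in the word of the triples -/
def lookQ (v : List A) (k : Fin 3) (j i : ℕ) : Prop :=
  scan (lookF (if k = 0 then .e0 else if k = 1 then .e1 else .e2) j i) [] v ≠ []

theorem tlook {r : ℕ} (k : Fin 3) (iv ij ii : Fin r) :
    Test r (fun ρ : Fin r → List A => lookQ (ρ iv) k (ρ ij).length (ρ ii).length) :=
  tnot (Test.empty (gen_look _ iv ij ii))

theorem tjc {r : ℕ} (c : JC) (im ij ij' : Fin r) :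
    Test r (fun ρ : Fin r → List A => c.sem (ρ im).length (ρ ij).length (ρ ij').length) := by
  cases c with
  | any => exact tcst True
  | zero =>
    exact Test.congr (Test.lenEq (PGen.var ij') (PGen.const [])) (fun ρ => Iff.rfl)
  | last => exact Test.lenEq (PGen.var ij') (PGen.var im)
  | same => exact Test.lenEq (PGen.var ij') (PGen.var ij)
  | next =>
    exact Test.congr (Test.lenEq (PGen.var ij') (PGen.append (PGen.var ij) (PGen.const [A.tick])))
      (fun ρ => by
        rw [List.length_append, List.length_singleton]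
        exact Iff.rfl)

theorem txc {r : ℕ} (c : XC) (iv ij ix ix' : Fin r) :
    Test r (fun ρ : Fin r → List A => c.sem (lookQ (ρ iv)) (ρ ij).length (ρ ix).length
      (ρ ix').length) := by
  cases c with
  | any => exact tcst True
  | same => exact Test.lenEq (PGen.var ix') (PGen.var ix)
  | lk k => exact tlook k iv ij ix'

theorem tinc {r : ℕ} (c : VK × JC × XC) (σ : VK) (im iv ij ix ij' ix' : Fin r) :
    Test r (fun ρ : Fin r → List A => IncC (lookQ (ρ iv)) (ρ im).length c (ρ ij).length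
      (ρ ix).length σ (ρ ij').length (ρ ix').length) :=
  Test.and (tcst _) (Test.and (tjc _ im ij ij') (txc _ iv ij ix ix'))

theorem gen_pow {r : ℕ} (i : Fin r) (c : ℕ) :
    PGen r (fun ρ : Fin r → List A => List.replicate ((ρ i).length ^ c) A.tick) :=
  Num.pow (NumA.var i A.tick) c

theorem gen_q {r : ℕ} (i : Fin r) (c : ℕ) :
    PGen r (fun ρ : Fin r → List A => List.replicate (2 * (ρ i).length ^ c - 1) A.tick) := by
  have h1 : PGen r (fun ρ : Fin r → List A => List.replicate (2 * (ρ i).length ^ c) A.tick) :=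
    Helper53_CookLevin.Num.mul (Num.const A.tick 2) (Num.pow (NumA.var i A.tick) c)
  refine PGen.congr (PGen.dropF h1 (PGen.const [A.tick])) (fun ρ => ?_)
  rw [List.drop_replicate]
  rfl

theorem tend {r : ℕ} (i iβ : Fin r) (c : ℕ) :
    Test r (fun ρ : Fin r → List A => (ρ i).length + 1 = 2 * (ρ iβ).length ^ c - 1) :=
  Test.congr (Test.lenEq (PGen.append (PGen.var i) (PGen.const [A.tick])) (gen_q iβ c))
    (fun ρ => by rw [List.length_append, List.length_singleton, List.length_replicate])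

theorem tzero {r : ℕ} (i : Fin r) : Test r (fun ρ : Fin r → List A => (ρ i).length = 0) :=
  Test.congr (Test.lenEq (PGen.var i) (PGen.const [])) (fun ρ => Iff.rfl)

theorem tsucc {r : ℕ} (i j : Fin r) :
    Test r (fun ρ : Fin r → List A => (ρ i).length + 1 = (ρ j).length) :=
  Test.congr (Test.lenEq (PGen.append (PGen.var i) (PGen.const [A.tick])) (PGen.var j))
    (fun ρ => by rw [List.length_append, List.length_singleton])

/-- adjacency is testable -/
theorem tadj (τ τ' : Kd) : Test 12 (fun ρ : Fin 12 → List A =>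
    AdjC (lookQ (ρ 10)) (ρ 9).length (ρ 8).length τ (ρ 7).length (ρ 6).length (ρ 5).length
      (ρ 4).length τ' (ρ 3).length (ρ 2).length (ρ 1).length (ρ 0).length) := by
  rcases τ with σ | τ <;> rcases τ' with σ' | τ'
  · exact tcst False
  · exact tor (Test.and (tzero 0) (tinc (srcC τ') σ 9 10 3 2 7 6))
      (Test.and (tend 0 8 _) (tinc (tgtC τ') σ 9 10 3 2 7 6))
  · exact tor (Test.and (tzero 4) (tinc (srcC τ) σ' 9 10 7 6 3 2))
      (Test.and (tend 4 8 _) (tinc (tgtC τ) σ' 9 10 7 6 3 2))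
  · exact Test.and (tcst _) (Test.and (Test.lenEq (PGen.var 7) (PGen.var 3))
      (Test.and (Test.lenEq (PGen.var 6) (PGen.var 2)) (Test.and
        (Test.lenEq (PGen.var 5) (PGen.var 1)) (tor (tsucc 4 0) (tsucc 0 4)))))

open Classical in
/-- entry of the matrix -/
noncomputable def bitQ (m β : ℕ) (v : List A) (τ : Kd) (j x i k : ℕ) (τ' : Kd)
    (j' x' i' k' : ℕ) : List A :=
  if AdjC (lookQ v) m β τ j x i k τ' j' x' i' k' then [.net] else [.upper]

theorem gen_bitQ (τ τ' : Kd) : PGen 12 (fun ρ : Fin 12 → List A =>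
    bitQ (ρ 9).length (ρ 8).length (ρ 10) τ (ρ 7).length (ρ 6).length (ρ 5).length
      (ρ 4).length τ' (ρ 3).length (ρ 2).length (ρ 1).length (ρ 0).length) := by
  classical
  exact Test.ite (tadj τ τ') (PGen.const _) (PGen.const _)

/-! ## Loops -/

theorem loop1 {r : ℕ} {s : (Fin r → List A) → ℕ}
    (h : PGen r (fun ρ => List.replicate (s ρ) A.tick)) {K : ℕ → (Fin r → List A) → List A}
    (hK : PGen (r + 1) (fun ρ => K (ρ 0).length (ρ ∘ Fin.succ))) :
    PGen r (fun ρ => (List.range (s ρ)).flatMap (fun a => K a ρ)) :=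
  PGen.congr (PGen.loopRange h (K := fun w ρ => K w.length ρ) hK) (fun ρ =>
    List.flatMap_congr (fun b _ => by simp only [List.length_replicate]))

theorem loop4 {r : ℕ} {s1 s2 s3 s4 : (Fin r → List A) → ℕ}
    (h1 : PGen r (fun ρ => List.replicate (s1 ρ) A.tick))
    (h2 : PGen r (fun ρ => List.replicate (s2 ρ) A.tick))
    (h3 : PGen r (fun ρ => List.replicate (s3 ρ) A.tick))
    (h4 : PGen r (fun ρ => List.replicate (s4 ρ) A.tick))
    {K : ℕ → ℕ → ℕ → ℕ → (Fin r → List A) → List A}
    (hK : PGen (r + 4) (fun ρ => K (ρ (0 : Fin (r + 1)).succ.succ.succ).length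
      (ρ (0 : Fin (r + 2)).succ.succ).length (ρ (0 : Fin (r + 3)).succ).length (ρ 0).length
      (fun i => ρ i.succ.succ.succ.succ))) :
    PGen r (fun ρ => (List.range (s1 ρ)).flatMap (fun a => (List.range (s2 ρ)).flatMap (fun b =>
      (List.range (s3 ρ)).flatMap (fun c => (List.range (s4 ρ)).flatMap (fun d =>
        K a b c d ρ))))) := by
  refine loop1 h1 (K := fun a ρ => (List.range (s2 ρ)).flatMap (fun b =>
      (List.range (s3 ρ)).flatMap (fun c => (List.range (s4 ρ)).flatMap (fun d =>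
        K a b c d ρ)))) ?_
  refine loop1 (PGen.rename Fin.succ h2) (K := fun b ρ =>
      (List.range (s3 (ρ ∘ Fin.succ))).flatMap (fun c => (List.range (s4 (ρ ∘ Fin.succ))).flatMap
        (fun d => K (ρ 0).length b c d (ρ ∘ Fin.succ)))) ?_
  refine loop1 (PGen.rename (fun i => i.succ.succ) h3) (K := fun c ρ =>
      (List.range (s4 (fun i => ρ i.succ.succ))).flatMap
        (fun d => K (ρ (0 : Fin (r + 1)).succ).length (ρ 0).length c d (fun i => ρ i.succ.succ))) ?_
  exact loop1 (PGen.rename (fun i => i.succ.succ.succ) h4) (K := fun d ρ =>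
        K (ρ (0 : Fin (r + 1)).succ.succ).length (ρ (0 : Fin (r + 2)).succ).length
          (ρ 0).length d (fun i => ρ i.succ.succ.succ)) hK

/-! ## The matrix -/

/-- the row of a vertex -/
noncomputable def rowQ (M : ℕ) (v : List A) (m β : ℕ) (τ : Kd) (a b c d : ℕ) : List A :=
  .width :: kds.flatMap (fun τ' => (List.range (z1 m τ')).flatMap (fun a' =>
    (List.range (z2 (6 * M + 3 + 1) τ')).flatMap (fun b' => (List.range (z3 β τ')).flatMap
      (fun c' => (List.range (z4 β τ')).flatMap (fun d' =>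
        bitQ m β v τ a b c d τ' a' b' c' d')))))

/-- the word of the matrix -/
noncomputable def matQ (M : ℕ) (v : List A) (m β : ℕ) : List A :=
  kds.flatMap (fun τ => (List.range (z1 m τ)).flatMap (fun a =>
    (List.range (z2 (6 * M + 3 + 1) τ)).flatMap (fun b => (List.range (z3 β τ)).flatMap
      (fun c => (List.range (z4 β τ)).flatMap (fun d => rowQ M v m β τ a b c d)))))

theorem gen_cst {r : ℕ} (c : ℕ) :
    PGen r (fun _ : Fin r → List A => List.replicate c A.tick) := PGen.const _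

theorem gen_z1 {r : ℕ} (im : Fin r) (τ : Kd) :
    PGen r (fun ρ : Fin r → List A => List.replicate (z1 (ρ im).length τ) A.tick) := by
  have h0 : PGen r (fun ρ : Fin r → List A => List.replicate (ρ im).length A.tick) :=
    NumA.var im A.tick
  have h1 : PGen r (fun ρ : Fin r → List A => List.replicate ((ρ im).length + 1) A.tick) :=
    NumA.add (NumA.var im) (NumA.const 1) A.tick
  rcases τ with τ | τ
  · cases τ with
    | t => exact gen_cst 1
    | b => exact gen_cst 1
    | A => exact h1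
    | FA s => exact h1
    | _ => exact h0
  · cases τ with
    | lo => exact gen_cst 1
    | hi => exact gen_cst 1
    | flo s => exact gen_cst 1
    | fhi s => exact gen_cst 1
    | _ => exact h0

theorem gen_z2 {r : ℕ} (iM : Fin r) (τ : Kd) :
    PGen r (fun ρ : Fin r → List A =>
      List.replicate (z2 (6 * (ρ iM).length + 3 + 1) τ) A.tick) := by
  have h0 : PGen r (fun ρ : Fin r → List A =>
      List.replicate (6 * (ρ iM).length + 3 + 1) A.tick) :=
    NumA.add (NumA.add (NumA.mul (NumA.const 6) (NumA.var iM)) (NumA.const 3)) (NumA.const 1) A.tick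
  rcases τ with τ | τ
  · cases τ with
    | A => exact h0
    | B => exact h0
    | _ => exact gen_cst 1
  · cases τ with
    | lo => exact h0
    | hi => exact h0
    | seg => exact h0
    | up => exact h0
    | tie => exact h0
    | _ => exact gen_cst 1

theorem gen_z3 {r : ℕ} (i : Fin r) (τ : Kd) :
    PGen r (fun ρ : Fin r → List A => List.replicate (z3 (ρ i).length τ) A.tick) := by
  rcases τ with τ | τ
  · exact gen_cst 1
  · exact gen_pow i _

theorem gen_z4 {r : ℕ} (i : Fin r) (τ : Kd) :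
    PGen r (fun ρ : Fin r → List A => List.replicate (z4 (ρ i).length τ) A.tick) := by
  rcases τ with τ | τ
  · exact gen_cst 1
  · exact gen_q i _

theorem gen_rowQ (τ : Kd) : PGen 8 (fun ρ : Fin 8 → List A =>
    rowQ (ρ 7).length (ρ 6) (ρ 5).length (ρ 4).length τ (ρ 3).length (ρ 2).length (ρ 1).length
      (ρ 0).length) := by
  refine PGen.append (PGen.const [A.width]) (Pool.Agent.SO.H82.PGen.flatMapC _ (fun τ' => ?_))
  exact loop4 (gen_z1 5 τ') (gen_z2 7 τ') (gen_z3 4 τ') (gen_z4 4 τ') (K := fun a' b' c' d' ρ =>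
    bitQ (ρ 5).length (ρ 4).length (ρ 6) τ (ρ 3).length (ρ 2).length (ρ 1).length (ρ 0).length
      τ' a' b' c' d') (gen_bitQ τ τ')

theorem gen_matQ : PGen 4 (fun ρ : Fin 4 → List A =>
    matQ (ρ 3).length (ρ 2) (ρ 1).length (ρ 0).length) := by
  refine Pool.Agent.SO.H82.PGen.flatMapC _ (fun τ => ?_)
  exact loop4 (gen_z1 1 τ) (gen_z2 3 τ) (gen_z3 0 τ) (gen_z4 0 τ) (K := fun a b c d ρ =>
    rowQ (ρ 3).length (ρ 2) (ρ 1).length (ρ 0).length τ a b c d) (gen_rowQ τ)

/-- the whole reduction on the working alphabet -/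
theorem gen_all (D κ : ℕ) : PGen 1 (fun ρ : Fin 1 → List A =>
    matQ (ρ 0).length (trW (ρ 0).reverse) (cnt isE2 (trW (ρ 0).reverse))
      ((D * ((ρ 0).length + 1)) ^ κ)) := by
  have h3 : PGen 3 (fun ρ : Fin 3 → List A => matQ (ρ 2).length (ρ 1) (ρ 0).length
      ((D * ((ρ 2).length + 1)) ^ κ)) := by
    have hβ : PGen 3 (fun ρ : Fin 3 → List A =>
        List.replicate ((D * ((ρ 2).length + 1)) ^ κ) A.tick) :=
      Num.pow (Helper53_CookLevin.Num.mul (Num.const A.tick D)
        (Helper53_CookLevin.Num.add (NumA.var 2 A.tick) (Num.const A.tick 1))) κ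
    refine PGen.congr (PGen.letG hβ (K := fun w ρ => matQ (ρ 2).length (ρ 1) (ρ 0).length
      w.length) gen_matQ) (fun ρ => ?_)
    rw [List.length_replicate]
  have h2 : PGen 2 (fun ρ : Fin 2 → List A => matQ (ρ 1).length (ρ 0) (cnt isE2 (ρ 0))
      ((D * ((ρ 1).length + 1)) ^ κ)) := by
    refine PGen.congr (PGen.letG (PGen.cnt isE2 A.tick (PGen.var (0 : Fin 2)))
      (K := fun w ρ => matQ (ρ 1).length (ρ 0) w.length ((D * ((ρ 1).length + 1)) ^ κ)) h3)
      (fun ρ => ?_)
    rw [List.length_replicate]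
  exact PGen.letG (gen_trW (PGen.reverse (PGen.var (0 : Fin 1))))
    (K := fun v ρ => matQ (ρ 0).length v (cnt isE2 v) ((D * ((ρ 0).length + 1)) ^ κ)) h2

/-! ## Correctness -/

/-- output letters in the working alphabet -/
def embG : GLetter → A
  | .row => .width
  | .one => .net
  | .zero => .upper

/-- reading the output letters -/
def toG : A → List GLetter
  | .width => [.row]
  | .net => [.one]
  | .upper => [.zero]
  | _ => []

theorem toG_embG : ∀ w : List GLetter, (w.map embG).flatMap toG = w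
  | [] => rfl
  | c :: w => by
    rw [List.map_cons, List.flatMap_cons, toG_embG w]
    cases c <;> rfl

theorem lookQ_iff (M : ℕ) (ts : List (ℕ × ℕ × ℕ)) (hs : ∀ t ∈ ts, Small M t) (k : Fin 3) (j i : ℕ)
    (hj : j < ts.length) : lookQ (encTs ts) k j i ↔ Lk (instOf (6 * M + 3) ts) k j i := by
  have key : ∀ e : A, (e = .e0 ∨ e = .e1 ∨ e = .e2) →
      (scan (lookF e j i) [] (encTs ts) ≠ [] ↔ comp e (ts.get ⟨j, hj⟩) = i) := by
    intro e he
    rw [look_encTs e he j i ts [] rfl]
    constructor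
    · rintro ⟨d, t, h1, h2, h3⟩
      have h4 : d = j := by
        have : cnt isE2 ([] : List A) = 0 := rfl
        omega
      subst h4
      rw [List.getElem?_eq_getElem hj, Option.some.injEq] at h1
      subst h1
      exact h3
    · intro h
      exact ⟨j, ts.get ⟨j, hj⟩, List.getElem?_eq_getElem hj, Nat.zero_add j, h⟩
  have hsm := hs (ts.get ⟨j, hj⟩) (List.get_mem _ _)
  have hmod : ∀ x : ℕ, x < 6 * M + 4 → (Fin.ofNat (6 * M + 3 + 1) x).val = x := by
    intro x hx
    rw [Fin.val_ofNat]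
    exact Nat.mod_eq_of_lt (by omega)
  have hL : Lk (instOf (6 * M + 3) ts) k j i ↔ (instOf (6 * M + 3) ts ⟨j, hj⟩ k).val = i :=
    ⟨fun ⟨_, h⟩ => h, fun h => ⟨hj, h⟩⟩
  rw [hL]
  unfold lookQ
  fin_cases k
  · have h : (instOf (6 * M + 3) ts ⟨j, hj⟩ 0).val = (ts.get ⟨j, hj⟩).1 := hmod _ hsm.1
    refine (key .e0 (Or.inl rfl)).trans ?_
    show _ ↔ (instOf (6 * M + 3) ts ⟨j, hj⟩ 0).val = i
    rw [h]
    rfl
  · have h : (instOf (6 * M + 3) ts ⟨j, hj⟩ 1).val = (ts.get ⟨j, hj⟩).2.1 := hmod _ hsm.2.1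
    refine (key .e1 (Or.inr (Or.inl rfl))).trans ?_
    show _ ↔ (instOf (6 * M + 3) ts ⟨j, hj⟩ 1).val = i
    rw [h]
    rfl
  · have h : (instOf (6 * M + 3) ts ⟨j, hj⟩ 2).val = (ts.get ⟨j, hj⟩).2.2 := hmod _ hsm.2.2
    refine (key .e2 (Or.inr (Or.inr rfl))).trans ?_
    show _ ↔ (instOf (6 * M + 3) ts ⟨j, hj⟩ 2).val = i
    rw [h]
    rfl

theorem inc_congr {L L' : Fin 3 → ℕ → ℕ → Prop} (m : ℕ) (c : VK × JC × XC) (j x : ℕ) (σ : VK)
    (j' x' : ℕ) (h : ∀ k, c.2.2 = .lk k → ∀ i, (L k j i ↔ L' k j i)) :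
    IncC L m c j x σ j' x' ↔ IncC L' m c j x σ j' x' := by
  obtain ⟨c1, c2, c3⟩ := c
  unfold IncC
  cases c3 with
  | lk k => exact and_congr Iff.rfl (and_congr Iff.rfl (h k rfl _))
  | _ => exact Iff.rfl

theorem src_lk (m : ℕ) (τ : EK) (k : Fin 3) (h : (srcC τ).2.2 = .lk k) : esj m τ = m := by
  cases τ <;> first | rfl | simp [srcC] at h

theorem tgt_lk (m : ℕ) (τ : EK) (k : Fin 3) (h : (tgtC τ).2.2 = .lk k) : esj m τ = m := by
  cases τ <;> first | rfl | simp [tgtC] at h

theorem adjC_congr {L L' : Fin 3 → ℕ → ℕ → Prop} (m β : ℕ)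
    (h : ∀ k j i, j < m → (L k j i ↔ L' k j i)) (τ : Kd) (j : Fin (z1 m τ)) (x i k : ℕ) (τ' : Kd)
    (j' : Fin (z1 m τ')) (x' i' k' : ℕ) :
    AdjC L m β τ j x i k τ' j' x' i' k' ↔ AdjC L' m β τ j x i k τ' j' x' i' k' := by
  rcases τ with σ | τ <;> rcases τ' with σ' | τ'
  · exact Iff.rfl
  · refine or_congr (and_congr Iff.rfl (inc_congr m _ _ _ _ _ _ fun k hk i => h k _ i ?_))
      (and_congr Iff.rfl (inc_congr m _ _ _ _ _ _ fun k hk i => h k _ i ?_))
    · exact lt_of_lt_of_eq j'.isLt (src_lk m τ' k hk)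
    · exact lt_of_lt_of_eq j'.isLt (tgt_lk m τ' k hk)
  · refine or_congr (and_congr Iff.rfl (inc_congr m _ _ _ _ _ _ fun k hk i => h k _ i ?_))
      (and_congr Iff.rfl (inc_congr m _ _ _ _ _ _ fun k hk i => h k _ i ?_))
    · exact lt_of_lt_of_eq j.isLt (src_lk m τ k hk)
    · exact lt_of_lt_of_eq j.isLt (tgt_lk m τ k hk)
  · exact Iff.rfl

theorem bitQ_eq (M : ℕ) (ts : List (ℕ × ℕ × ℕ)) (hs : ∀ t ∈ ts, Small M t) (β : ℕ)
    (x y : BT (instOf (6 * M + 3) ts) β) :
    (open Classical in if (BG (tmpl (instOf (6 * M + 3) ts) β)).Adj x y then [A.net]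
      else [A.upper]) =
      bitQ ts.length β (encTs ts) (kd x) (i1 x) (i2 x) (i3 x) (i4 x) (kd y) (i1 y) (i2 y) (i3 y)
        (i4 y) := by
  classical
  unfold bitQ
  have h1 : AdjC (lookQ (encTs ts)) ts.length β (kd x) (i1 x) (i2 x) (i3 x) (i4 x) (kd y) (i1 y)
      (i2 y) (i3 y) (i4 y) ↔ (BG (tmpl (instOf (6 * M + 3) ts) β)).Adj x y := by
    rw [adj_iff]
    obtain ⟨a, b, c, d, hx⟩ := mk_surj x
    obtain ⟨a', b', c', d', hy⟩ := mk_surj y
    have e1 : i1 x = a.val := by rw [← i1_mk (kd x) a b c d, hx]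
    have e2 : i1 y = a'.val := by rw [← i1_mk (kd y) a' b' c' d', hy]
    rw [e1, e2]
    exact adjC_congr ts.length β (fun k j i hj => lookQ_iff M ts hs k j i hj) _ _ _ _ _ _ _ _ _ _
  by_cases h : (BG (tmpl (instOf (6 * M + 3) ts) β)).Adj x y
  · rw [if_pos h, if_pos (h1.2 h)]
  · rw [if_neg h, if_neg (fun h' => h (h1.1 h'))]

theorem rng {β' : Type} (k : ℕ) (g : Fin k → List β') (h : ℕ → List β')
    (hg : ∀ i, g i = h i.val) : (List.finRange k).flatMap g = (List.range k).flatMap h :=
  finRange_flatMap k g h hg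

/-- the matrix word of the graph -/
theorem matQ_eq (M : ℕ) (ts : List (ℕ × ℕ × ℕ)) (hs : ∀ t ∈ ts, Small M t) (β : ℕ) :
    matQ M (encTs ts) ts.length β =
      (encGraph (grB (instOf (6 * M + 3) ts) β)).map embG := by
  classical
  rw [encGraph_grB, List.map_flatMap, verts_flatMap]
  unfold matQ
  refine List.flatMap_congr (fun τ _ => ?_)
  symm
  refine rng _ _ _ (fun a => rng _ _ _ (fun b => rng _ _ _ (fun c => rng _ _ _ (fun d => ?_))))
  rw [List.map_cons]
  refine congrArg (List.cons _) ?_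
  rw [List.map_map, List.map_eq_flatMap, verts_flatMap]
  refine List.flatMap_congr (fun τ' _ => ?_)
  refine rng _ _ _ (fun a' => rng _ _ _ (fun b' => rng _ _ _ (fun c' => rng _ _ _ (fun d' => ?_))))
  have h := bitQ_eq M ts hs β (mk _ β τ a b c d) (mk _ β τ' a' b' c' d')
  rw [kd_mk, kd_mk, i1_mk, i1_mk, i2_mk, i2_mk, i3_mk, i3_mk, i4_mk, i4_mk] at h
  rw [← h]
  by_cases h' : (BG (tmpl (instOf (6 * M + 3) ts) β)).Adj (mk _ β τ a b c d)
      (mk _ β τ' a' b' c' d')
  · rw [if_pos h']
    simp only [Function.comp_apply]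
    rw [if_pos h']
    rfl
  · rw [if_neg h']
    simp only [Function.comp_apply]
    rw [if_neg h']
    rfl

/-- the reduction -/
theorem word_formula (D κ : ℕ) (F : CNF) :
    matQ ((encodeCNF F).map inj).length (trW ((encodeCNF F).map inj).reverse)
      (cnt isE2 (trW ((encodeCNF F).map inj).reverse))
      ((D * (((encodeCNF F).map inj).length + 1)) ^ κ) =
      (encGraph (grB (instF F) ((D * ((encodeCNF F).length + 1)) ^ κ))).map embG := by
  have hc : cnt isE2 (encTs (triples (encodeCNF F).reverse)) =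
      (triples (encodeCNF F).reverse).length := by
    have := cnt_encTs (triples (encodeCNF F).reverse) []
    rw [List.nil_append] at this
    rw [this]
    exact Nat.zero_add _
  rw [← List.map_reverse, trW_map, List.length_map, hc]
  have h := small_triples (encodeCNF F).reverse
  rw [List.length_reverse] at h
  exact matQ_eq (encodeCNF F).length _ h _

theorem poly : PolyStmt := by
  intro D κ
  refine ⟨fun F => grB (instF F) ((D * ((encodeCNF F).length + 1)) ^ κ), fun F => grB_iso _ _, ?_⟩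
  have c1 : TM2ComputableInPolyTime encodeCNF (id : List A → List A)
      (fun F => (encodeCNF F).map inj) :=
    morphComputable encodeCNF id _ [] (fun b => [inj b]) (fun F => by
      show (encodeCNF F).map inj = [] ++ (encodeCNF F).flatMap (fun b => [inj b])
      rw [List.nil_append]
      induction encodeCNF F with
      | nil => rfl
      | cons b x ih => rw [List.map_cons, List.flatMap_cons, ih]; rfl)
  obtain ⟨c2⟩ := pgen_computable _ (gen_all D κ)
  have c3 : TM2ComputableInPolyTime (id : List A → List A) (fun w : List GLetter => w)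
      (fun w => w.flatMap toG) :=
    morphComputable id (fun w => w) _ [] toG (fun w => by
      rw [List.nil_append]
      rfl)
  obtain ⟨c4⟩ := TM2ComputableInPolyTime.comp c1 c2
  obtain ⟨c5⟩ := TM2ComputableInPolyTime.comp c4 c3
  refine ⟨⟨c5.toTM2ComputableAux, c5.time, fun F => ?_⟩⟩
  have h := c5.outputsFun F
  have e : (((fun w : List A => w.flatMap toG) ∘ ((fun w : List A =>
      matQ ((![w] : Fin 1 → List A) 0).length (trW ((![w] : Fin 1 → List A) 0).reverse)
        (cnt isE2 (trW ((![w] : Fin 1 → List A) 0).reverse))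
        ((D * (((![w] : Fin 1 → List A) 0).length + 1)) ^ κ)) ∘
      fun F : CNF => (encodeCNF F).map inj)) F) =
      encGraph (grB (instF F) ((D * ((encodeCNF F).length + 1)) ^ κ)) := by
    show (matQ ((encodeCNF F).map inj).length (trW ((encodeCNF F).map inj).reverse)
      (cnt isE2 (trW ((encodeCNF F).map inj).reverse))
      ((D * (((encodeCNF F).map inj).length + 1)) ^ κ)).flatMap toG
      = encGraph (grB (instF F) ((D * ((encodeCNF F).length + 1)) ^ κ))
    rw [word_formula, toG_embG]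
  rw [e] at h
  exact h

end Pool.Agent.LCR.H92
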