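import Pool.Agent.Helper92_LCR.Sel

/-!
# The bundle graph of the template by a table (module POLY, part 1)
-/

namespace Pool.Agent.LCR.H92

/-! ## Kinds of vertices and edges of the template -/

/-- kinds of vertices of the template -/
inductive VK : Type
  | t | b | A | B | FA (s : Bool) | FB (s : Bool) | u | w | z (s : Bool)
  deriving DecidableEq

/-- kinds of edges of the template -/
inductive EK : Type
  | lo | hi | seg | up | flo (s : Bool) | fhi (s : Bool) | fseg (s : Bool) | fup (s : Bool)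
  | wall (s : Bool) | tie | ftie (s : Bool) | wtie | blk (s k : Bool) | con (s : Bool)
  deriving DecidableEq

/-- types of kinds of edges -/
def tyK : EK → Ty
  | .lo => .F
  | .hi => .F
  | .seg => .PT
  | .up => .PW
  | .flo _ => .F
  | .fhi _ => .F
  | .fseg _ => .F
  | .fup _ => .F
  | .wall _ => .W
  | .tie => .T2
  | .ftie _ => .T2
  | .wtie => .T2
  | .blk _ _ => .P0
  | .con _ => .T1

section

variable {n m : ℕ}

/-- kind of a vertex -/
def vk : TV n m → VK
  | .t => .t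
  | .b => .b
  | .A _ _ => .A
  | .B _ _ => .B
  | .FA _ s => .FA s
  | .FB _ s => .FB s
  | .u _ => .u
  | .w _ => .w
  | .z _ s => .z s

/-- first index of a vertex -/
def vj : TV n m → ℕ
  | .t => 0
  | .b => 0
  | .A j _ => j
  | .B j _ => j
  | .FA j _ => j
  | .FB j _ => j
  | .u j => j
  | .w j => j
  | .z j _ => j

/-- second index of a vertex -/
def vx : TV n m → ℕ
  | .A _ x => x
  | .B _ x => x
  | _ => 0

/-- kind of an edge -/
def ek : TE n m → EK
  | .lo _ => .lo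
  | .hi _ => .hi
  | .seg _ _ => .seg
  | .up _ _ => .up
  | .flo s => .flo s
  | .fhi s => .fhi s
  | .fseg _ s => .fseg s
  | .fup _ s => .fup s
  | .wall _ s => .wall s
  | .tie _ _ => .tie
  | .ftie _ s => .ftie s
  | .wtie _ => .wtie
  | .blk _ s k => .blk s k
  | .con _ s => .con s

/-- first index of an edge -/
def ej : TE n m → ℕ
  | .lo _ => 0
  | .hi _ => 0
  | .seg j _ => j
  | .up j _ => j
  | .flo _ => 0
  | .fhi _ => 0
  | .fseg j _ => j
  | .fup j _ => j
  | .wall j _ => j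
  | .tie j _ => j
  | .ftie j _ => j
  | .wtie j => j
  | .blk j _ _ => j
  | .con j _ => j

/-- second index of an edge -/
def ex : TE n m → ℕ
  | .lo x => x
  | .hi x => x
  | .seg _ x => x
  | .up _ x => x
  | .tie _ x => x
  | _ => 0

theorem ty_ek (e : TE n m) : ty e = tyK (ek e) := by cases e <;> rfl

variable (n m)

/-- range of the first index -/
def vsj : VK → ℕ
  | .t => 1
  | .b => 1
  | .A => m + 1
  | .B => m
  | .FA _ => m + 1
  | .FB _ => m
  | .u => m
  | .w => m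
  | .z _ => m

/-- range of the second index -/
def vsx : VK → ℕ
  | .A => n
  | .B => n
  | _ => 1

/-- range of the first index -/
def esj : EK → ℕ
  | .lo => 1
  | .hi => 1
  | .flo _ => 1
  | .fhi _ => 1
  | _ => m

/-- range of the second index -/
def esx : EK → ℕ
  | .lo => n
  | .hi => n
  | .seg => n
  | .up => n
  | .tie => n
  | _ => 1

variable {n m}

/-- the vertex with given kind and indices -/
def mkV : (τ : VK) → Fin (vsj m τ) → Fin (vsx n τ) → TV n m
  | .t, _, _ => .t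
  | .b, _, _ => .b
  | .A, j, x => .A j x
  | .B, j, x => .B j x
  | .FA s, j, _ => .FA j s
  | .FB s, j, _ => .FB j s
  | .u, j, _ => .u j
  | .w, j, _ => .w j
  | .z s, j, _ => .z j s

/-- the edge with given kind and indices -/
def mkE : (τ : EK) → Fin (esj m τ) → Fin (esx n τ) → TE n m
  | .lo, _, x => .lo x
  | .hi, _, x => .hi x
  | .seg, j, x => .seg j x
  | .up, j, x => .up j x
  | .flo s, _, _ => .flo s
  | .fhi s, _, _ => .fhi s
  | .fseg s, j, _ => .fseg j s
  | .fup s, j, _ => .fup j s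
  | .wall s, j, _ => .wall j s
  | .tie, j, x => .tie j x
  | .ftie s, j, _ => .ftie j s
  | .wtie, j, _ => .wtie j
  | .blk s k, j, _ => .blk j s k
  | .con s, j, _ => .con j s

theorem f1 (a : Fin 1) : a.val = 0 := by omega

theorem vk_mk (τ : VK) (a : Fin (vsj m τ)) (b : Fin (vsx n τ)) : vk (mkV τ a b) = τ := by
  cases τ <;> rfl

theorem vj_mk (τ : VK) (a : Fin (vsj m τ)) (b : Fin (vsx n τ)) : vj (mkV τ a b) = a := by
  cases τ <;> first | rfl | exact (f1 a).symm

theorem vx_mk (τ : VK) (a : Fin (vsj m τ)) (b : Fin (vsx n τ)) : vx (mkV τ a b) = b := by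
  cases τ <;> first | rfl | exact (f1 b).symm

theorem ek_mk (τ : EK) (a : Fin (esj m τ)) (b : Fin (esx n τ)) : ek (mkE τ a b) = τ := by
  cases τ <;> rfl

theorem ej_mk (τ : EK) (a : Fin (esj m τ)) (b : Fin (esx n τ)) : ej (mkE τ a b) = a := by
  cases τ <;> first | rfl | exact (f1 a).symm

theorem ex_mk (τ : EK) (a : Fin (esj m τ)) (b : Fin (esx n τ)) : ex (mkE τ a b) = b := by
  cases τ <;> first | rfl | exact (f1 b).symm

theorem v_surj (v : TV n m) : ∃ a b, mkV (vk v) a b = v := by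
  cases v with
  | t => exact ⟨⟨0, Nat.one_pos⟩, ⟨0, Nat.one_pos⟩, rfl⟩
  | b => exact ⟨⟨0, Nat.one_pos⟩, ⟨0, Nat.one_pos⟩, rfl⟩
  | A j x => exact ⟨j, x, rfl⟩
  | B j x => exact ⟨j, x, rfl⟩
  | FA j s => exact ⟨j, ⟨0, Nat.one_pos⟩, rfl⟩
  | FB j s => exact ⟨j, ⟨0, Nat.one_pos⟩, rfl⟩
  | u j => exact ⟨j, ⟨0, Nat.one_pos⟩, rfl⟩
  | w j => exact ⟨j, ⟨0, Nat.one_pos⟩, rfl⟩
  | z j s => exact ⟨j, ⟨0, Nat.one_pos⟩, rfl⟩

theorem e_surj (e : TE n m) : ∃ a b, mkE (ek e) a b = e := by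
  cases e with
  | lo x => exact ⟨⟨0, Nat.one_pos⟩, x, rfl⟩
  | hi x => exact ⟨⟨0, Nat.one_pos⟩, x, rfl⟩
  | seg j x => exact ⟨j, x, rfl⟩
  | up j x => exact ⟨j, x, rfl⟩
  | flo s => exact ⟨⟨0, Nat.one_pos⟩, ⟨0, Nat.one_pos⟩, rfl⟩
  | fhi s => exact ⟨⟨0, Nat.one_pos⟩, ⟨0, Nat.one_pos⟩, rfl⟩
  | fseg j s => exact ⟨j, ⟨0, Nat.one_pos⟩, rfl⟩
  | fup j s => exact ⟨j, ⟨0, Nat.one_pos⟩, rfl⟩
  | wall j s => exact ⟨j, ⟨0, Nat.one_pos⟩, rfl⟩
  | tie j x => exact ⟨j, x, rfl⟩
  | ftie j s => exact ⟨j, ⟨0, Nat.one_pos⟩, rfl⟩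
  | wtie j => exact ⟨j, ⟨0, Nat.one_pos⟩, rfl⟩
  | blk j s k => exact ⟨j, ⟨0, Nat.one_pos⟩, rfl⟩
  | con j s => exact ⟨j, ⟨0, Nat.one_pos⟩, rfl⟩

theorem e_ext {e f : TE n m} (h1 : ek e = ek f) (h2 : ej e = ej f) (h3 : ex e = ex f) : e = f := by
  obtain ⟨a, b, he⟩ := e_surj e
  obtain ⟨a', b', hf⟩ := e_surj f
  have e1 : a.val = ej e := by rw [← ej_mk (ek e) a b, he]
  have e2 : b.val = ex e := by rw [← ex_mk (ek e) a b, he]
  have f1 : a'.val = ej f := by rw [← ej_mk (ek f) a' b', hf]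
  have f2 : b'.val = ex f := by rw [← ex_mk (ek f) a' b', hf]
  rw [← he, ← hf]
  clear he hf
  generalize ek e = τ at *
  subst h1
  have h4 : a = a' := Fin.ext (by omega)
  have h5 : b = b' := Fin.ext (by omega)
  rw [h4, h5]

/-! ## Endpoints -/

/-- conditions on the first index of an endpoint -/
inductive JC : Type
  | any | zero | last | same | next

/-- conditions on the second index of an endpoint -/
inductive XC : Type
  | any | same | lk (k : Fin 3)

/-- meaning -/
def JC.sem (m j j' : ℕ) : JC → Prop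
  | .any => True
  | .zero => j' = 0
  | .last => j' = m
  | .same => j' = j
  | .next => j' = j + 1

/-- meaning; `L k j x` says that the `k`-th element of the triple `j` is `x` -/
def XC.sem (L : Fin 3 → ℕ → ℕ → Prop) (j x x' : ℕ) : XC → Prop
  | .any => True
  | .same => x' = x
  | .lk k => L k j x'

/-- the element `s` of a triple -/
def ei (s : Bool) : Fin 3 := if s then 2 else 0

/-- first endpoint -/
def srcC : EK → VK × JC × XC
  | .lo => (.t, .any, .any)
  | .hi => (.A, .last, .same)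
  | .seg => (.A, .same, .same)
  | .up => (.B, .same, .same)
  | .flo _ => (.t, .any, .any)
  | .fhi s => (.FA s, .last, .any)
  | .fseg s => (.FA s, .same, .any)
  | .fup s => (.FB s, .same, .any)
  | .wall s => (.FB s, .same, .any)
  | .tie => (.u, .same, .any)
  | .ftie _ => (.u, .same, .any)
  | .wtie => (.u, .same, .any)
  | .blk s k => if k then (.z s, .same, .any) else (.A, .same, .lk (ei s))
  | .con s => (.A, .same, .lk (ei s))

/-- second endpoint -/
def tgtC : EK → VK × JC × XC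
  | .lo => (.A, .zero, .same)
  | .hi => (.b, .any, .any)
  | .seg => (.B, .same, .same)
  | .up => (.A, .next, .same)
  | .flo s => (.FA s, .zero, .any)
  | .fhi _ => (.b, .any, .any)
  | .fseg s => (.FB s, .same, .any)
  | .fup s => (.FA s, .next, .any)
  | .wall _ => (.w, .same, .any)
  | .tie => (.A, .same, .same)
  | .ftie s => (.FA s, .same, .any)
  | .wtie => (.w, .same, .any)
  | .blk s k => if k then (.B, .same, .lk (ei s)) else (.z s, .same, .any)
  | .con _ => (.B, .same, .lk 1)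

/-- incidence -/
def IncC (L : Fin 3 → ℕ → ℕ → Prop) (m : ℕ) (c : VK × JC × XC) (j x : ℕ) (σ : VK)
    (j' x' : ℕ) : Prop :=
  c.1 = σ ∧ c.2.1.sem m j j' ∧ c.2.2.sem L j x x'

/-- lookup -/
def Lk (T : Fin m → Fin 3 → Fin n) (k : Fin 3) (j i : ℕ) : Prop :=
  ∃ h : j < m, (T ⟨j, h⟩ k).val = i

theorem Lk_iff (T : Fin m → Fin 3 → Fin n) (k : Fin 3) (j : Fin m) (i : Fin n) :
    Lk T k j i ↔ T j k = i := by
  constructor
  · rintro ⟨h, h2⟩
    exact Fin.ext h2
  · intro h
    exact ⟨j.isLt, by rw [← h]⟩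

theorem en_ei (T : Fin m → Fin 3 → Fin n) (j : Fin m) (s : Bool) : en T j s = T j (ei s) := by
  cases s <;> rfl

theorem src_iff (T : Fin m → Fin 3 → Fin n) (e : TE n m) (v : TV n m) :
    tsrc T e = v ↔ IncC (Lk T) m (srcC (ek e)) (ej e) (ex e) (vk v) (vj v) (vx v) := by
  cases e with
  | blk j s k =>
    cases k <;> cases v <;>
      simp [tsrc, IncC, srcC, ek, ej, ex, vk, vj, vx, JC.sem, XC.sem, en_ei, Fin.ext_iff, Lk] <;>
      grind
  | _ =>
    cases v <;>
      simp [tsrc, IncC, srcC, ek, ej, ex, vk, vj, vx, JC.sem, XC.sem, en_ei, Fin.ext_iff, Lk] <;>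
      grind

theorem tgt_iff (T : Fin m → Fin 3 → Fin n) (e : TE n m) (v : TV n m) :
    ttgt T e = v ↔ IncC (Lk T) m (tgtC (ek e)) (ej e) (ex e) (vk v) (vj v) (vx v) := by
  cases e with
  | blk j s k =>
    cases k <;> cases v <;>
      simp [ttgt, IncC, tgtC, ek, ej, ex, vk, vj, vx, JC.sem, XC.sem, en_ei, Fin.ext_iff, Lk] <;>
      grind
  | _ =>
    cases v <;>
      simp [ttgt, IncC, tgtC, ek, ej, ex, vk, vj, vx, JC.sem, XC.sem, Fin.ext_iff, Lk,
        -Fin.val_eq_zero_iff] <;>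
      grind

end

end Pool.Agent.LCR.H92
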