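import Mathlib
import Pool.Agent.Helper49_LCR.Stmts

/-!
# Module SEL: selection of one strand of each bundle
-/

namespace Pool.Agent.LCR.H92

open Set

/-! ## Curves and chains of curves -/

theorem isCurve_symm {A : Set Pt} {p q : Pt} (h : IsCurve A p q) : IsCurve A q p := by
  obtain ⟨γ, hc, hi, h0, h1, hA⟩ := h
  have hm : MapsTo (fun t : ℝ => 1 - t) (Icc 0 1) (Icc 0 1) := fun t ht =>
    ⟨by linarith [ht.2], by linarith [ht.1]⟩
  refine ⟨fun t => γ (1 - t), hc.comp (by fun_prop) hm, ?_, by simpa using h1, by simpa using h0, ?_⟩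
  · intro s hs t ht hst
    have := hi (hm hs) (hm ht) hst
    linarith
  · rw [← hA]
    ext x
    constructor
    · rintro ⟨t, ht, rfl⟩
      exact ⟨1 - t, hm ht, rfl⟩
    · rintro ⟨t, ht, rfl⟩
      exact ⟨1 - t, hm ht, by simp⟩

theorem isCurve_compact {A : Set Pt} {p q : Pt} (h : IsCurve A p q) : IsCompact A := by
  obtain ⟨γ, hc, hi, h0, h1, hA⟩ := h
  rw [← hA]
  exact isCompact_Icc.image_of_continuousOn hc

theorem isCurve_left {A : Set Pt} {p q : Pt} (h : IsCurve A p q) : p ∈ A := by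
  obtain ⟨γ, hc, hi, h0, h1, hA⟩ := h
  rw [← hA]
  exact ⟨0, ⟨le_refl _, zero_le_one⟩, h0⟩

theorem isCurve_right {A : Set Pt} {p q : Pt} (h : IsCurve A p q) : q ∈ A :=
  isCurve_left (isCurve_symm h)

/-- from the first endpoint to any other point avoiding the last endpoint -/
theorem isCurve_joined {A : Set Pt} {p q : Pt} (h : IsCurve A p q) {x : Pt} (hx : x ∈ A)
    (hxq : x ≠ q) : JoinedIn (A \ {q}) p x := by
  obtain ⟨γ, hc, hi, h0, h1, hA⟩ := h
  rw [← hA] at hx
  obtain ⟨t, ht, rfl⟩ := hx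
  have ht1 : t < 1 := lt_of_le_of_ne ht.2 (fun e => hxq (by rw [e, h1]))
  have hsub : ∀ s ∈ Icc (0 : ℝ) 1, t * s ∈ Icc (0 : ℝ) 1 := fun s hs =>
    ⟨mul_nonneg ht.1 hs.1, by nlinarith [hs.1, hs.2, ht.1]⟩
  refine ⟨⟨⟨fun s : unitInterval => γ (t * s), ?_⟩, by simpa using h0, by simp⟩, ?_⟩
  · have : ContinuousOn (fun s : ℝ => γ (t * s)) (Icc 0 1) := hc.comp (by fun_prop) hsub
    exact continuousOn_iff_continuous_domRestrict.1 this
  · intro s
    refine ⟨?_, ?_⟩
    · rw [← hA]
      exact ⟨t * s, hsub _ s.2, rfl⟩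
    · intro e
      have e' : γ (t * s) = q := e
      rw [← h1] at e'
      have := hi (hsub _ s.2) ⟨zero_le_one, le_refl _⟩ e'
      have h2 := s.2.2
      have h3 := s.2.1
      nlinarith [ht.1]

theorem isCurve_joined' {A : Set Pt} {p q : Pt} (h : IsCurve A p q) : JoinedIn A p q := by
  obtain ⟨γ, hc, hi, h0, h1, hA⟩ := h
  refine ⟨⟨⟨fun s : unitInterval => γ s, ?_⟩, by simpa using h0, by simpa using h1⟩, ?_⟩
  · exact continuousOn_iff_continuous_domRestrict.1 hc
  · intro s
    rw [← hA]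
    exact ⟨s, s.2, rfl⟩

/-- the union of the first `n` sets -/
def Un (A : ℕ → Set Pt) (n : ℕ) : Set Pt := {x | ∃ k < n, x ∈ A k}

theorem chain_node {A : ℕ → Set Pt} {x : ℕ → Pt} {n : ℕ}
    (hc : ∀ k < n, IsCurve (A k) (x k) (x (k + 1))) (z : Pt) (m : ℕ) (hm : m < n)
    (hz : ∀ k < m, z ∉ A k) (hz0 : x 0 ≠ z) : JoinedIn (Un A n \ {z}) (x 0) (x m) := by
  induction m with
  | zero =>
    refine JoinedIn.refl ⟨⟨0, hm, isCurve_left (hc 0 hm)⟩, ?_⟩
    exact hz0
  | succ m ih =>
    refine (ih (by omega) (fun k hk => hz k (by omega))).trans ?_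
    refine (isCurve_joined' (hc m (by omega))).mono ?_
    intro y hy
    refine ⟨⟨m, by omega, hy⟩, ?_⟩
    intro e
    rw [mem_singleton_iff] at e
    exact hz m (by omega) (e ▸ hy)

theorem chain_src {A : ℕ → Set Pt} {x : ℕ → Pt} {n : ℕ}
    (hc : ∀ k < n, IsCurve (A k) (x k) (x (k + 1))) (hne : ∀ k, k + 1 < n → x n ∉ A k)
    (h0 : x 0 ≠ x n) {y : Pt} (hy : y ∈ Un A n) (hyn : y ≠ x n) :
    JoinedIn (Un A n \ {x n}) (x 0) y := by
  obtain ⟨k, hk, hyk⟩ := hy
  refine (chain_node hc (x n) k hk (fun j hj => hne j (by omega)) h0).trans ?_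
  rcases Nat.lt_or_ge (k + 1) n with h | h
  · have hnk := hne k h
    by_cases hyk1 : y = x (k + 1)
    · rw [hyk1]
      refine (isCurve_joined' (hc k hk)).mono fun w hw => ⟨⟨k, hk, hw⟩, ?_⟩
      rintro rfl
      exact hnk hw
    · refine (isCurve_joined (hc k hk) hyk hyk1).mono fun w hw => ⟨⟨k, hk, hw.1⟩, ?_⟩
      rintro rfl
      exact hnk hw.1
  · have e : k + 1 = n := by omega
    subst e
    exact (isCurve_joined (hc k hk) hyk hyn).mono fun w hw => ⟨⟨k, hk, hw.1⟩, hw.2⟩

theorem chain_join {A : ℕ → Set Pt} {x : ℕ → Pt} {n : ℕ} (hn : 0 < n)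
    (hc : ∀ k < n, IsCurve (A k) (x k) (x (k + 1))) : JoinedIn (Un A n) (x 0) (x n) := by
  have : ∀ m, m ≤ n → JoinedIn (Un A n) (x 0) (x m) := by
    intro m
    induction m with
    | zero => exact fun _ => JoinedIn.refl ⟨0, hn, isCurve_left (hc 0 hn)⟩
    | succ m ih =>
      intro hm
      exact (ih (by omega)).trans ((isCurve_joined' (hc m (by omega))).mono
        fun w hw => ⟨m, by omega, hw⟩)
  exact this n le_rfl

theorem chain_tgt {A : ℕ → Set Pt} {x : ℕ → Pt} {n : ℕ}
    (hc : ∀ k < n, IsCurve (A k) (x k) (x (k + 1))) (hne : ∀ k, 0 < k → k < n → x 0 ∉ A k)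
    (h0 : x 0 ≠ x n) {y : Pt} (hy : y ∈ Un A n) (hy0 : y ≠ x 0) :
    JoinedIn (Un A n \ {x 0}) y (x n) := by
  have hU : Un (fun k => A (n - 1 - k)) n = Un A n := by
    ext z
    constructor
    · rintro ⟨k, hk, hz⟩
      exact ⟨n - 1 - k, by omega, hz⟩
    · rintro ⟨k, hk, hz⟩
      refine ⟨n - 1 - k, by omega, ?_⟩
      have e : n - 1 - (n - 1 - k) = k := by omega
      show z ∈ A (n - 1 - (n - 1 - k))
      rw [e]
      exact hz
  have h := chain_src (A := fun k => A (n - 1 - k)) (x := fun k => x (n - k)) (n := n)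
    (fun k hk => by
      have e := isCurve_symm (hc (n - 1 - k) (by omega))
      have e1 : n - 1 - k + 1 = n - k := by omega
      have e2 : n - (k + 1) = n - 1 - k := by omega
      rw [e1] at e
      rw [e2]
      exact e)
    (fun k hk => by
      rw [Nat.sub_self]
      exact hne _ (by omega) (by omega))
    (by
      rw [Nat.sub_self, Nat.sub_zero]
      exact h0.symm)
    (y := y) (by rw [hU]; exact hy) (by rw [Nat.sub_self]; exact hy0)
  rw [hU, Nat.sub_self, Nat.sub_zero] at h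
  exact h.symm

/-! ## Strands -/

variable {S : Bund}

theorem node_zero (e : S.E) (i : Fin (S.w e)) : node S e i 0 = .inl (S.src e) := by
  simp [node]

theorem node_mid (e : S.E) (i : Fin (S.w e)) {k : ℕ} (h0 : 0 < k) (h : k < 2 * S.q e) :
    node S e i k = .inr ⟨e, i, ⟨k - 1, by omega⟩⟩ := by
  unfold node
  rw [if_neg (by omega), dif_pos (by omega)]

theorem node_last (e : S.E) (i : Fin (S.w e)) (hq : 0 < S.q e) :
    node S e i (2 * S.q e) = .inl (S.tgt e) := by
  unfold node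
  rw [if_neg (by omega), dif_neg (by omega)]

/-- vertices of the template on a strand -/
theorem node_inl (e : S.E) (i : Fin (S.w e)) {k : ℕ} {v : S.V} (h : node S e i k = .inl v) :
    v = S.src e ∨ v = S.tgt e := by
  unfold node at h
  split_ifs at h with h1 h2
  · left
    exact (Sum.inl.inj h).symm
  · right
    exact (Sum.inl.inj h).symm

/-- inner vertices of a strand -/
theorem node_inr (e : S.E) (i : Fin (S.w e)) {k : ℕ} {v : Σ e : S.E, Fin (S.w e) × Fin (2 * S.q e - 1)}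
    (h : node S e i k = .inr v) : ∃ l, v = ⟨e, i, l⟩ := by
  unfold node at h
  split_ifs at h with h1 h2
  exact ⟨_, (Sum.inr.inj h).symm⟩

theorem node_ne (e : S.E) (i : Fin (S.w e)) (hst : S.src e ≠ S.tgt e) (hq : 0 < S.q e) {k l : ℕ}
    (hk : k < l) (hl : l ≤ 2 * S.q e) : node S e i k ≠ node S e i l := by
  rcases Nat.eq_zero_or_pos k with rfl | hk0
  · rw [node_zero]
    rcases Nat.lt_or_ge l (2 * S.q e) with h | h
    · rw [node_mid e i hk h]
      exact Sum.inl_ne_inr
    · have : l = 2 * S.q e := by omega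
      subst this
      rw [node_last e i hq]
      exact fun e => hst (Sum.inl.inj e)
  · rw [node_mid e i hk0 (by omega)]
    rcases Nat.lt_or_ge l (2 * S.q e) with h | h
    · rw [node_mid e i (by omega) h]
      intro e
      have e1 := Sum.inr.inj e
      simp only [Sigma.mk.injEq, heq_eq_eq, Prod.mk.injEq, Fin.mk.injEq, true_and] at e1
      omega
    · have : l = 2 * S.q e := by omega
      subst this
      rw [node_last e i hq]
      exact Sum.inr_ne_inl

/-- the `k`-th edge of a strand -/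
def ed (S : Bund) (e : S.E) (i : Fin (S.w e)) (k : ℕ) : Sym2 (BV S) :=
  s(node S e i k, node S e i (k + 1))

theorem ed_mem (e : S.E) (i : Fin (S.w e)) (hst : S.src e ≠ S.tgt e) (hq : 0 < S.q e) {k : ℕ}
    (hk : k < 2 * S.q e) : (BG S).Adj (node S e i k) (node S e i (k + 1)) := by
  unfold BG
  rw [SimpleGraph.fromRel_adj]
  exact ⟨node_ne e i hst hq (Nat.lt_succ_self k) (by omega), Or.inl ⟨e, i, k, hk, rfl, rfl⟩⟩

theorem ed_inner (e : S.E) (i : Fin (S.w e)) (hq : 0 < S.q e) {k : ℕ} (hk : k < 2 * S.q e) :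
    ∃ l, (.inr ⟨e, i, l⟩ : BV S) ∈ ed S e i k := by
  rcases Nat.eq_zero_or_pos k with rfl | hk0
  · refine ⟨⟨0, by omega⟩, ?_⟩
    unfold ed
    rw [node_mid e i (k := 0 + 1) (by omega) (by omega)]
    exact Sym2.mem_mk_right _ _
  · refine ⟨⟨k - 1, by omega⟩, ?_⟩
    unfold ed
    rw [node_mid e i hk0 hk]
    exact Sym2.mem_mk_left _ _

theorem mem_ed {e : S.E} {i : Fin (S.w e)} {k : ℕ} {v : BV S} (h : v ∈ ed S e i k) :
    ∃ l, v = node S e i l := by
  unfold ed at h
  rw [Sym2.mem_iff] at h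
  rcases h with h | h
  · exact ⟨_, h⟩
  · exact ⟨_, h⟩

/-- an edge of a strand determines the strand -/
theorem ed_inj {e f : S.E} {i : Fin (S.w e)} {j : Fin (S.w f)} {k l : ℕ} (hq : 0 < S.q e)
    (hk : k < 2 * S.q e) (h : ed S e i k = ed S f j l) :
    (⟨e, i⟩ : Σ e : S.E, Fin (S.w e)) = ⟨f, j⟩ := by
  obtain ⟨r, hr⟩ := ed_inner e i hq hk
  rw [h] at hr
  obtain ⟨s, hs⟩ := mem_ed hr
  obtain ⟨u, hu⟩ := node_inr f j hs.symm
  have h1 := congrArg Sigma.fst hu
  dsimp only at h1
  subst h1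
  simp only [Sigma.mk.injEq, heq_eq_eq, Prod.mk.injEq, true_and] at hu
  rw [hu.1]

section

variable (D : Drawing (BG S))

/-- the set of a strand -/
def Str (e : S.E) (i : Fin (S.w e)) : Set Pt := Un (fun k => D.curve (ed S e i k)) (2 * S.q e)

/-- the strands cross -/
def Bad (a b : Σ e : S.E, Fin (S.w e)) : Prop :=
  ∃ k < 2 * S.q a.1, ∃ l < 2 * S.q b.1, ∃ x, (ed S b.1 b.2 l, x) ∈ D.crossings (ed S a.1 a.2 k)

variable {D}

theorem crossings_symm {g g' : Sym2 (BV S)} {x : Pt} (hg : g ∈ (BG S).edgeSet)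
    (h : (g', x) ∈ D.crossings g) : (g, x) ∈ D.crossings g' := by
  obtain ⟨h1, h2, h3, h4⟩ := h
  refine ⟨hg, h2.symm, ⟨h3.2, h3.1⟩, ?_⟩
  rintro ⟨v, hv, hv', hx⟩
  exact h4 ⟨v, hv', hv, hx⟩

theorem bad_symm (hst : ∀ e, S.src e ≠ S.tgt e) (hq : ∀ e, 0 < S.q e)
    {a b : Σ e : S.E, Fin (S.w e)} (h : Bad D a b) : Bad D b a := by
  obtain ⟨k, hk, l, hl, x, hx⟩ := h
  exact ⟨l, hl, k, hk, x, crossings_symm (ed_mem a.1 a.2 (hst _) (hq _) hk) hx⟩

theorem bad_card (hst : ∀ e, S.src e ≠ S.tgt e) (hq : ∀ e, 0 < S.q e) {C : ℕ}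
    (hD : ∀ e ∈ (BG S).edgeSet, (D.crossings e).encard ≤ C) (e : S.E) (i : Fin (S.w e)) (f : S.E) :
    {j : Fin (S.w f) | Bad D ⟨e, i⟩ ⟨f, j⟩}.encard ≤ (2 * S.q e * C : ℕ) := by
  classical
  have hfin : ∀ k < 2 * S.q e, (D.crossings (ed S e i k)).encard ≤ C := fun k hk =>
    hD _ (ed_mem e i (hst e) (hq e) hk)
  -- the union of the crossings
  set U : Set (Sym2 (BV S) × Pt) := ⋃ k ∈ Finset.range (2 * S.q e), D.crossings (ed S e i k) with hU
  have hUc : U.encard ≤ (2 * S.q e * C : ℕ) := by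
    have : ∀ n ≤ 2 * S.q e, (⋃ k ∈ Finset.range n, D.crossings (ed S e i k)).encard ≤ (n * C : ℕ) := by
      intro n
      induction n with
      | zero => intro _; simp
      | succ n ih =>
        intro hn
        rw [Finset.range_add_one, Finset.set_biUnion_insert]
        refine (encard_union_le _ _).trans ?_
        refine (add_le_add (hfin n (by omega)) (ih (by omega))).trans ?_
        rw [← Nat.cast_add]
        exact_mod_cast (by ring_nf; exact le_rfl)
    exact this _ le_rfl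
  refine le_trans ?_ hUc
  have hch : ∀ j : {j : Fin (S.w f) | Bad D ⟨e, i⟩ ⟨f, j⟩}, ∃ g ∈ U, ∃ l < 2 * S.q f,
      g.1 = ed S f j.1 l := by
    rintro ⟨j, k, hk, l, hl, x, hx⟩
    refine ⟨(ed S f j l, x), ?_, l, hl, rfl⟩
    rw [hU]
    simp only [mem_iUnion]
    exact ⟨k, Finset.mem_range.2 hk, hx⟩
  choose g hg l hl hgl using hch
  have hinj : Function.Injective (fun j => (⟨g j, hg j⟩ : U)) := by
    intro j j' hjj
    have h1 : g j = g j' := congrArg Subtype.val hjj
    have h2 : ed S f j.1 (l j) = ed S f j'.1 (l j') := by rw [← hgl, ← hgl, h1]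
    have h3 := ed_inj (hq f) (hl j) h2
    simp only [Sigma.mk.injEq, heq_eq_eq, true_and] at h3
    exact Subtype.ext h3
  exact (Function.Embedding.mk _ hinj).encard_le

theorem choice (hst : ∀ e, S.src e ≠ S.tgt e) (hw : ∀ e, 0 < S.w e) (hq : ∀ e, 0 < S.q e) {C : ℕ}
    [Fintype S.E] (a : S.E → ℕ) (Pr : S.E → S.E → Prop) (hsy : ∀ e f, Pr e f → Pr f e)
    (hbig : ∀ e f, e ≠ f → Pr e f → a e ≤ a f → Fintype.card S.E * (2 * S.q e * C) < S.w f)
    (hD : ∀ e ∈ (BG S).edgeSet, (D.crossings e).encard ≤ C) :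
    ∃ c : ∀ e, Fin (S.w e), ∀ e f, e ≠ f → Pr e f → ¬ Bad D ⟨e, c e⟩ ⟨f, c f⟩ := by
  classical
  suffices H : ∀ T : Finset S.E, ∃ c : ∀ e, Fin (S.w e), ∀ e ∈ T, ∀ f ∈ T, e ≠ f → Pr e f →
      ¬ Bad D ⟨e, c e⟩ ⟨f, c f⟩ by
    obtain ⟨c, hc⟩ := H Finset.univ
    exact ⟨c, fun e f => hc e (Finset.mem_univ _) f (Finset.mem_univ _)⟩
  intro T
  induction T using Finset.induction_on_max_value a with
  | empty => exact ⟨fun e => ⟨0, hw e⟩, fun e he => absurd he (Finset.notMem_empty _)⟩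
  | insert f T hfT hmax ih =>
    obtain ⟨c, hc⟩ := ih
    -- the related edges
    set R : Finset S.E := T.filter fun e => Pr e f with hR
    set B : S.E → Finset (Fin (S.w f)) := fun e =>
      Finset.univ.filter fun j => Bad D ⟨e, c e⟩ ⟨f, j⟩ with hB
    have hBc : ∀ e, (B e).card ≤ 2 * S.q e * C := by
      intro e
      have h := bad_card hst hq hD e (c e) f
      have e1 : {j : Fin (S.w f) | Bad D ⟨e, c e⟩ ⟨f, j⟩} = (B e : Set (Fin (S.w f))) := by
        ext j
        simp [hB]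
      rw [e1, Set.encard_coe_eq_coe_finsetCard] at h
      exact_mod_cast h
    have hlt : (R.biUnion B).card < S.w f := by
      refine lt_of_le_of_lt Finset.card_biUnion_le ?_
      rcases R.eq_empty_or_nonempty with h | h
      · rw [h, Finset.sum_empty]
        exact hw f
      · have hE : 0 < Fintype.card S.E := Fintype.card_pos_iff.2 ⟨f⟩
        refine lt_of_mul_lt_mul_left (a := Fintype.card S.E) ?_ (Nat.zero_le _)
        calc Fintype.card S.E * ∑ e ∈ R, (B e).card
            ≤ Fintype.card S.E * ∑ e ∈ R, 2 * S.q e * C :=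
              Nat.mul_le_mul_left _ (Finset.sum_le_sum fun e _ => hBc e)
          _ = ∑ e ∈ R, Fintype.card S.E * (2 * S.q e * C) := Finset.mul_sum _ _ _
          _ < ∑ e ∈ R, S.w f := by
              refine Finset.sum_lt_sum_of_nonempty h fun e he => ?_
              rw [hR, Finset.mem_filter] at he
              exact hbig e f (fun h => hfT (h ▸ he.1)) he.2 (hmax e he.1)
          _ = R.card * S.w f := by rw [Finset.sum_const, smul_eq_mul]
          _ ≤ Fintype.card S.E * S.w f := Nat.mul_le_mul_right _ (Finset.card_le_univ _)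
    obtain ⟨j, hj⟩ : ∃ j : Fin (S.w f), j ∉ R.biUnion B := by
      by_contra hcon
      push Not at hcon
      have : R.biUnion B = Finset.univ := Finset.eq_univ_iff_forall.2 hcon
      rw [this, Finset.card_univ, Fintype.card_fin] at hlt
      exact lt_irrefl _ hlt
    have hjb : ∀ e ∈ T, Pr e f → ¬ Bad D ⟨e, c e⟩ ⟨f, j⟩ := by
      intro e he hpr hb
      apply hj
      rw [Finset.mem_biUnion]
      refine ⟨e, Finset.mem_filter.2 ⟨he, hpr⟩, ?_⟩
      exact Finset.mem_filter.2 ⟨Finset.mem_univ _, hb⟩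
    refine ⟨Function.update c f j, ?_⟩
    intro e he e' he' hne hpr
    rw [Finset.mem_insert] at he he'
    rcases he with rfl | he
    · rcases he' with rfl | he'
      · exact absurd rfl hne
      · rw [Function.update_self, Function.update_of_ne hne.symm]
        exact fun hb => hjb e' he' (hsy _ _ hpr) (bad_symm hst hq hb)
    · rcases he' with rfl | he'
      · rw [Function.update_self, Function.update_of_ne hne]
        exact hjb e he hpr
      · have h1 : e ≠ f := fun h => hfT (h ▸ he)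
        have h2 : e' ≠ f := fun h => hfT (h ▸ he')
        rw [Function.update_of_ne h1, Function.update_of_ne h2]
        exact hc e he e' he' hne hpr

end

/-- the node `k < 2q` (k positive) is not a vertex of the template -/
theorem sel : SelStmt := by
  intro S _ a Pr C hst hw hq hsy hbig D hD
  obtain ⟨c, hc⟩ := choice hst hw hq a Pr hsy hbig hD
  have hcur : ∀ e, ∀ k < 2 * S.q e, IsCurve (D.curve (ed S e (c e) k)) (D.pos (node S e (c e) k))
      (D.pos (node S e (c e) (k + 1))) := fun e k hk =>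
    D.isCurve _ _ (ed_mem e (c e) (hst e) (hq e) hk)
  have hmem : ∀ e, ∀ k < 2 * S.q e, ed S e (c e) k ∈ (BG S).edgeSet := fun e k hk =>
    ed_mem e (c e) (hst e) (hq e) hk
  have hx0 : ∀ e, D.pos (node S e (c e) 0) = D.pos (.inl (S.src e)) := fun e => by rw [node_zero]
  have hxn : ∀ e, D.pos (node S e (c e) (2 * S.q e)) = D.pos (.inl (S.tgt e)) := fun e => by
    rw [node_last _ _ (hq e)]
  have h2q : ∀ e, 0 < 2 * S.q e := fun e => by have := hq e; omega
  have h0n : ∀ e, D.pos (node S e (c e) 0) ≠ D.pos (node S e (c e) (2 * S.q e)) := fun e h =>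
    node_ne e (c e) (hst e) (hq e) (h2q e) le_rfl (D.pos_inj h)
  have hvert : ∀ e, ∀ k < 2 * S.q e, ∀ l ≤ 2 * S.q e,
      D.pos (node S e (c e) l) ∈ D.curve (ed S e (c e) k) → l = k ∨ l = k + 1 := by
    intro e k hk l hl hmm
    have h := D.vertex _ (hmem e k hk) _ hmm
    unfold ed at h
    rw [Sym2.mem_iff] at h
    rcases h with h | h
    · left
      by_contra hne
      rcases Nat.lt_or_gt_of_ne hne with h' | h'
      · exact node_ne e (c e) (hst e) (hq e) h' (by omega) h
      · exact node_ne e (c e) (hst e) (hq e) h' hl h.symm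
    · right
      by_contra hne
      rcases Nat.lt_or_gt_of_ne hne with h' | h'
      · exact node_ne e (c e) (hst e) (hq e) h' (by omega) h
      · exact node_ne e (c e) (hst e) (hq e) h' hl h.symm
  refine ⟨fun e => Str D e (c e), ?_, ?_, ?_, ?_, ?_, ?_, ?_, ?_, ?_⟩
  · intro v v' h
    exact Sum.inl.inj (D.pos_inj h)
  · intro e
    have : Str D e (c e) = ⋃ k ∈ Finset.range (2 * S.q e), D.curve (ed S e (c e) k) := by
      ext x
      simp [Str, Un]
    rw [this]
    refine isClosed_biUnion_finset fun k hk => ?_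
    exact (isCurve_compact (hcur e k (Finset.mem_range.1 hk))).isClosed
  · intro e
    refine ⟨0, h2q e, ?_⟩
    beta_reduce
    rw [← hx0]
    exact isCurve_left (hcur e 0 (h2q e))
  · intro e
    refine ⟨2 * S.q e - 1, by have := hq e; omega, ?_⟩
    have h := isCurve_right (hcur e (2 * S.q e - 1) (by have := hq e; omega))
    have e1 : 2 * S.q e - 1 + 1 = 2 * S.q e := by have := hq e; omega
    rw [e1, hxn] at h
    exact h
  · rintro e v ⟨k, hk, hv⟩
    obtain ⟨l, hl⟩ := mem_ed (D.vertex _ (hmem e k hk) _ hv)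
    exact node_inl e (c e) hl.symm
  · intro e x hx hxt
    have h := chain_src (hcur e) (fun k hk hm => by
      have := hvert e k (by omega) _ le_rfl hm
      omega) (h0n e) hx (by rw [hxn]; exact hxt)
    rw [hxn, hx0] at h
    exact h
  · intro e x hx hxs
    have h := chain_tgt (hcur e) (fun k hk0 hk hm => by
      have := hvert e k hk 0 (by omega) hm
      omega) (h0n e) hx (by rw [hx0]; exact hxs)
    rw [hxn, hx0] at h
    exact h
  · intro e
    have h := chain_join (h2q e) (hcur e)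
    rw [hxn, hx0] at h
    exact h
  · rintro e f hef hpr x ⟨⟨k, hk, hxk⟩, ⟨l, hl, hxl⟩⟩
    by_contra hcon
    apply hc e f hef hpr
    refine ⟨k, hk, l, hl, x, hmem f l hl, ?_, ⟨hxk, hxl⟩, ?_⟩
    · intro h
      exact hef (congrArg Sigma.fst (ed_inj (hq f) hl h)).symm
    · rintro ⟨v, hv1, hv2, hx⟩
      obtain ⟨r, hr⟩ := mem_ed hv1
      obtain ⟨s, hs⟩ := mem_ed hv2
      rcases v with v | v
      · exact hcon ⟨v, node_inl e (c e) hr.symm, node_inl f (c f) hs.symm, hx⟩
      · obtain ⟨l1, h1⟩ := node_inr e (c e) hr.symm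
        obtain ⟨l2, h2⟩ := node_inr f (c f) hs.symm
        apply hef
        have := congrArg Sigma.fst (h1.symm.trans h2)
        exact this

end Pool.Agent.LCR.H92
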