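import Mathlib
import Pool.Agent.Helper49_LCR.Stmts

/-!
# Module TPL: the straight drawing of the template
-/

namespace Pool.Agent.LCR.H92

/-- the segments `p q` and `p' q'` meet in endpoints only -/
def Good (p q p' q' : Pt) : Prop :=
  ∀ s s' : ℝ, 0 ≤ s → s ≤ 1 → 0 ≤ s' → s' ≤ 1 →
    p.1 + s * (q.1 - p.1) = p'.1 + s' * (q'.1 - p'.1) →
    p.2 + s * (q.2 - p.2) = p'.2 + s' * (q'.2 - p'.2) → (s = 0 ∨ s = 1) ∧ (s' = 0 ∨ s' = 1)

theorem Good.symm {p q p' q' : Pt} (h : Good p q p' q') : Good p' q' p q :=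
  fun s s' h1 h2 h3 h4 e1 e2 => (h s' s h3 h4 h1 h2 e1.symm e2.symm).symm

theorem le_of {a b c s : ℝ} (h0 : 0 ≤ s) (h1 : s ≤ 1) (ha : a ≤ c) (hb : b ≤ c) :
    a + s * (b - a) ≤ c := by nlinarith

theorem ge_of {a b c s : ℝ} (h0 : 0 ≤ s) (h1 : s ≤ 1) (ha : c ≤ a) (hb : c ≤ b) :
    c ≤ a + s * (b - a) := by nlinarith

theorem eq_top {a b c s : ℝ} (h1 : s ≤ 1) (ha : a ≤ c) (hb : b ≤ c) (hab : a ≠ b)
    (he : c ≤ a + s * (b - a)) (h0 : 0 ≤ s) : s = 0 ∨ s = 1 := by
  rcases lt_or_gt_of_ne hab with h | h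
  · right
    have : (1 - s) * (b - a) ≤ 0 := by nlinarith
    nlinarith [mul_nonneg (sub_nonneg.2 h1) (sub_nonneg.2 h.le)]
  · left
    have : s * (a - b) ≤ 0 := by nlinarith
    nlinarith [mul_nonneg h0 (sub_nonneg.2 h.le)]

theorem eq_bot {a b c s : ℝ} (h1 : s ≤ 1) (ha : c ≤ a) (hb : c ≤ b) (hab : a ≠ b)
    (he : a + s * (b - a) ≤ c) (h0 : 0 ≤ s) : s = 0 ∨ s = 1 := by
  refine eq_top (a := -a) (b := -b) (c := -c) h1 (by linarith) (by linarith)
    (fun h => hab (neg_injective h)) (by linarith) h0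

theorem good_y_le {p q p' q' : Pt} (c : ℝ) (h1 : p.2 ≤ c) (h2 : q.2 ≤ c) (h12 : p.2 ≠ q.2)
    (h3 : c ≤ p'.2) (h4 : c ≤ q'.2) (h34 : p'.2 ≠ q'.2) : Good p q p' q' := by
  intro s s' s0 s1 s0' s1' _ e
  have a1 := le_of s0 s1 h1 h2
  have a2 := ge_of s0' s1' h3 h4
  exact ⟨eq_top s1 h1 h2 h12 (by linarith) s0, eq_bot s1' h3 h4 h34 (by linarith) s0'⟩

theorem good_y_lt {p q p' q' : Pt} (c : ℝ) (h1 : p.2 ≤ c) (h2 : q.2 ≤ c)
    (h3 : c < p'.2) (h4 : c < q'.2) : Good p q p' q' := by
  intro s s' s0 s1 s0' s1' _ e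
  have a1 := le_of s0 s1 h1 h2
  have a2 := ge_of s0' s1' (le_min h3.le h4.le |>.trans (min_le_left _ _)) (min_le_right p'.2 q'.2 |>.trans' (le_min h3.le h4.le))
  have a3 : min p'.2 q'.2 ≤ p'.2 + s' * (q'.2 - p'.2) := ge_of s0' s1' (min_le_left _ _) (min_le_right _ _)
  have a4 : c < min p'.2 q'.2 := lt_min h3 h4
  exact absurd e (by intro e; linarith)

theorem good_x_lt {p q p' q' : Pt} (c : ℝ) (h1 : p.1 ≤ c) (h2 : q.1 ≤ c)
    (h3 : c < p'.1) (h4 : c < q'.1) : Good p q p' q' := by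
  intro s s' s0 s1 s0' s1' e _
  have a1 := le_of s0 s1 h1 h2
  have a3 : min p'.1 q'.1 ≤ p'.1 + s' * (q'.1 - p'.1) := ge_of s0' s1' (min_le_left _ _) (min_le_right _ _)
  have a4 : c < min p'.1 q'.1 := lt_min h3 h4
  exact absurd e (by intro e; linarith)

theorem good_vert {x x' y1 y2 y1' y2' : ℝ} (h : x ≠ x') : Good (x, y1) (x, y2) (x', y1') (x', y2') := by
  intro s s' _ _ _ _ e _
  exact absurd (by simpa using e) h

theorem good_lo {a b : ℝ} (h : a ≠ b) : Good (0, 0) (a, 1) (0, 0) (b, 1) := by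
  intro s s' _ _ _ _ e1 e2
  simp only at e1 e2
  have e : s' = s := by linarith
  subst e
  have h1 : s' * (a - b) = 0 := by linarith
  rcases mul_eq_zero.1 h1 with h2 | h2
  · exact ⟨Or.inl h2, Or.inl h2⟩
  · exact absurd (sub_eq_zero.1 h2) h

theorem good_hi {a b y : ℝ} (h : a ≠ b) : Good (a, y + 1) (0, y + 2) (b, y + 1) (0, y + 2) := by
  intro s s' _ _ _ _ e1 e2
  simp only at e1 e2
  have e : s' = s := by linarith
  subst e
  have h1 : (1 - s') * (a - b) = 0 := by linarith
  rcases mul_eq_zero.1 h1 with h2 | h2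
  · have : s' = 1 := by linarith
    exact ⟨Or.inr this, Or.inr this⟩
  · exact absurd (sub_eq_zero.1 h2) h

theorem good_fseg_ftie {N h : ℝ} (hN : 1 ≤ N) (s t : Bool) :
    Good (if s then N else 0, h + 1) (if s then N else 0, h + 3) (1 / 2, h + 3 / 2)
      (if t then N else 0, h + 1) := by
  intro r r' h0 h1 h0' h1' e1 e2
  cases s <;> cases t <;> simp only [Bool.false_eq_true, if_true, if_false] at e1 e2
  · have : r' = 1 := by linarith
    subst this
    exact ⟨Or.inl (by linarith), Or.inr rfl⟩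
  · nlinarith
  · nlinarith
  · have h3 : (1 - r') * (N - 1 / 2) = 0 := by linarith
    rcases mul_eq_zero.1 h3 with h4 | h4
    · have : r' = 1 := by linarith
      subst this
      exact ⟨Or.inl (by linarith), Or.inr rfl⟩
    · linarith

theorem good_fseg_wall {N h : ℝ} (hN : 1 ≤ N) (s t : Bool) :
    Good (if s then N else 0, h + 1) (if s then N else 0, h + 3) (if t then N else 0, h + 3)
      (1 / 2, h + 3) := by
  intro r r' h0 h1 h0' h1' e1 e2
  cases s <;> cases t <;> simp only [Bool.false_eq_true, if_true, if_false] at e1 e2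
  · exact ⟨Or.inr (by linarith), Or.inl (by linarith)⟩
  · nlinarith
  · nlinarith
  · have h3 : r' * (N - 1 / 2) = 0 := by linarith
    rcases mul_eq_zero.1 h3 with h4 | h4
    · exact ⟨Or.inr (by linarith), Or.inl h4⟩
    · linarith

theorem good_fup_wall {N h : ℝ} (hN : 1 ≤ N) (s t : Bool) :
    Good (if s then N else 0, h + 3) (if s then N else 0, h + 4) (if t then N else 0, h + 3)
      (1 / 2, h + 3) := by
  intro r r' h0 h1 h0' h1' e1 e2
  cases s <;> cases t <;> simp only [Bool.false_eq_true, if_true, if_false] at e1 e2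
  · exact ⟨Or.inl (by linarith), Or.inl (by linarith)⟩
  · nlinarith
  · nlinarith
  · have h3 : r' * (N - 1 / 2) = 0 := by linarith
    rcases mul_eq_zero.1 h3 with h4 | h4
    · exact ⟨Or.inl (by linarith), Or.inl h4⟩
    · linarith

theorem good_wall_wtie {N h : ℝ} (hN : 1 ≤ N) (s : Bool) :
    Good (if s then N else 0, h + 3) (1 / 2, h + 3) (1 / 2, h + 3 / 2) (1 / 2, h + 3) := by
  intro r r' h0 h1 h0' h1' e1 e2
  cases s <;> simp only [Bool.false_eq_true, if_true, if_false] at e1 e2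
  · exact ⟨Or.inr (by linarith), Or.inr (by linarith)⟩
  · have h3 : (1 - r) * (N - 1 / 2) = 0 := by linarith
    rcases mul_eq_zero.1 h3 with h4 | h4
    · exact ⟨Or.inr (by linarith), Or.inr (by linarith)⟩
    · linarith

/-- positions of the ends of the blockers -/
noncomputable def bl (a h : ℝ) (k : Bool) : Pt × Pt :=
  if k then ((a + 1 / 4, h + 3 / 2), (a, h + 2)) else ((a, h + 1), (a + 1 / 4, h + 3 / 2))

theorem bl_x (a h : ℝ) (k : Bool) : a ≤ (bl a h k).1.1 ∧ a ≤ (bl a h k).2.1 ∧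
    (bl a h k).1.1 ≤ a + 1 / 4 ∧ (bl a h k).2.1 ≤ a + 1 / 4 := by
  cases k <;> simp [bl]

theorem bl_y (a h : ℝ) (k : Bool) : h + 1 ≤ (bl a h k).1.2 ∧ h + 1 ≤ (bl a h k).2.2 ∧
    (bl a h k).1.2 ≤ h + 2 ∧ (bl a h k).2.2 ≤ h + 2 ∧ (bl a h k).1.2 ≠ (bl a h k).2.2 := by
  cases k <;> norm_num [bl]

theorem good_blk_seg {a b : ℕ} {h : ℝ} (k : Bool) :
    Good (bl a h k).1 (bl a h k).2 ((b : ℝ), h + 1) ((b : ℝ), h + 2) := by
  obtain ⟨x1, x2, x3, x4⟩ := bl_x a h k
  rcases lt_trichotomy a b with hab | hab | hab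
  · have : (a : ℝ) + 1 ≤ b := by exact_mod_cast hab
    exact good_x_lt ((a : ℝ) + 1 / 4) x3 x4 (by dsimp only; linarith) (by dsimp only; linarith)
  · subst hab
    intro r r' h0 h1 h0' h1' e1 e2
    cases k <;> simp only [bl, Bool.false_eq_true, if_true, if_false] at e1 e2
    · exact ⟨Or.inl (by linarith), Or.inl (by linarith)⟩
    · exact ⟨Or.inr (by linarith), Or.inr (by linarith)⟩
  · have : (b : ℝ) + 1 ≤ a := by exact_mod_cast hab
    refine (good_x_lt (b : ℝ) ?_ ?_ ?_ ?_).symm <;> linarith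

theorem good_blk_con {a b : ℕ} (hab : a ≠ b) {h : ℝ} (k : Bool) :
    Good (bl a h k).1 (bl a h k).2 ((a : ℝ), h + 1) ((b : ℝ), h + 2) := by
  intro r r' h0 h1 h0' h1' e1 e2
  rcases Nat.lt_or_gt_of_ne hab with hab | hab
  · have h3 : (a : ℝ) + 1 ≤ b := by exact_mod_cast hab
    cases k <;> simp only [bl, Bool.false_eq_true, if_true, if_false] at e1 e2
    · have h4 : r' = r / 2 := by linarith
      subst h4
      have h5 : r = 0 := by nlinarith
      exact ⟨Or.inl h5, Or.inl (by linarith)⟩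
    · have h4 : r' = 1 / 2 + r / 2 := by linarith
      subst h4
      nlinarith
  · have h3 : (b : ℝ) + 1 ≤ a := by exact_mod_cast hab
    cases k <;> simp only [bl, Bool.false_eq_true, if_true, if_false] at e1 e2
    · have h4 : r' = r / 2 := by linarith
      subst h4
      have h5 : r = 0 := by nlinarith
      exact ⟨Or.inl h5, Or.inl (by linarith)⟩
    · have h4 : r' = 1 / 2 + r / 2 := by linarith
      subst h4
      nlinarith

theorem good_blk_con' {a b c : ℕ} (hab : (a < b ∧ b < c) ∨ (c < b ∧ b < a)) {h : ℝ} (k : Bool) :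
    Good (bl c h k).1 (bl c h k).2 ((a : ℝ), h + 1) ((b : ℝ), h + 2) := by
  obtain ⟨x1, x2, x3, x4⟩ := bl_x c h k
  rcases hab with ⟨h1, h2⟩ | ⟨h1, h2⟩
  · have h3 : (a : ℝ) + 1 ≤ b := by exact_mod_cast h1
    have h4 : (b : ℝ) + 1 ≤ c := by exact_mod_cast h2
    refine (good_x_lt (b : ℝ) ?_ ?_ ?_ ?_).symm <;> linarith
  · have h3 : (c : ℝ) + 1 ≤ b := by exact_mod_cast h1
    have h4 : (b : ℝ) + 1 ≤ a := by exact_mod_cast h2
    refine good_x_lt ((c : ℝ) + 1 / 4) x3 x4 ?_ ?_ <;> dsimp only <;> linarith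

theorem good_blk_blk {a b : ℕ} (hab : a ≠ b) {h : ℝ} (k l : Bool) :
    Good (bl a h k).1 (bl a h k).2 (bl b h l).1 (bl b h l).2 := by
  obtain ⟨x1, x2, x3, x4⟩ := bl_x a h k
  obtain ⟨y1, y2, y3, y4⟩ := bl_x b h l
  rcases Nat.lt_or_gt_of_ne hab with hab | hab
  · have h3 : (a : ℝ) + 1 ≤ b := by exact_mod_cast hab
    refine good_x_lt ((a : ℝ) + 1 / 4) x3 x4 ?_ ?_ <;> linarith
  · have h3 : (b : ℝ) + 1 ≤ a := by exact_mod_cast hab
    refine (good_x_lt ((b : ℝ) + 1 / 4) y3 y4 ?_ ?_).symm <;> linarith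

section

variable {n m : ℕ} (T : Fin m → Fin 3 → Fin n) (px : Fin n → ℕ)

/-- first endpoint -/
noncomputable def ps (e : TE n m) : Pt := tpos T px (tsrc T e)

/-- second endpoint -/
noncomputable def pt (e : TE n m) : Pt := tpos T px (ttgt T e)

/-- level of an edge -/
def lvl : TE n m → ℕ
  | .lo _ => 0
  | .hi _ => m + 1
  | .seg j _ => j + 1
  | .up j _ => j + 1
  | .flo _ => 0
  | .fhi _ => m + 1
  | .fseg j _ => j + 1
  | .fup j _ => j + 1
  | .wall j _ => j + 1
  | .tie j _ => j + 1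
  | .ftie j _ => j + 1
  | .wtie j => j + 1
  | .blk j _ _ => j + 1
  | .con j _ => j + 1

/-- horizontal edges -/
def isWall : TE n m → Bool
  | .wall _ _ => true
  | _ => false

theorem blk_ps (j : Fin m) (s k : Bool) : ps T px (.blk j s k) = (bl (px (en T j s)) (3 * (j.val : ℝ)) k).1 := by
  cases k <;> simp [ps, tsrc, tpos, bl]

theorem blk_pt (j : Fin m) (s k : Bool) : pt T px (.blk j s k) = (bl (px (en T j s)) (3 * (j.val : ℝ)) k).2 := by
  cases k <;> simp [pt, ttgt, tpos, bl]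

theorem bounds (e : TE n m) : 3 * (lvl e : ℝ) - 2 ≤ (ps T px e).2 ∧ 3 * (lvl e : ℝ) - 2 ≤ (pt T px e).2 ∧
    (ps T px e).2 ≤ 3 * (lvl e : ℝ) + 1 ∧ (pt T px e).2 ≤ 3 * (lvl e : ℝ) + 1 := by
  cases e with
  | blk j s k =>
    rw [blk_ps, blk_pt]
    obtain ⟨h1, h2, h3, h4, _⟩ := bl_y (px (en T j s)) (3 * (j.val : ℝ)) k
    simp only [lvl]
    push_cast
    refine ⟨?_, ?_, ?_, ?_⟩ <;> linarith
  | _ =>
    simp only [lvl, ps, pt, tsrc, ttgt, tpos, Fin.val_zero, Fin.val_last, Fin.val_castSucc, Fin.val_succ]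
    push_cast
    refine ⟨?_, ?_, ?_, ?_⟩ <;> linarith

theorem bounds_ne (e : TE n m) (h : isWall e = false) : (ps T px e).2 ≠ (pt T px e).2 := by
  cases e with
  | blk j s k =>
    rw [blk_ps, blk_pt]
    exact (bl_y (px (en T j s)) (3 * (j.val : ℝ)) k).2.2.2.2
  | wall j s => simp [isWall] at h
  | _ =>
    simp only [ps, pt, tsrc, ttgt, tpos, Fin.val_zero, Fin.val_last, Fin.val_castSucc, Fin.val_succ]
    push_cast
    intro hh
    linarith

theorem bounds_wall (e : TE n m) (h : isWall e = true) :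
    (ps T px e).2 = 3 * (lvl e : ℝ) ∧ (pt T px e).2 = 3 * (lvl e : ℝ) := by
  cases e with
  | wall j s =>
    simp only [lvl, ps, pt, tsrc, ttgt, tpos]
    push_cast
    constructor <;> ring
  | _ => simp [isWall] at h

theorem good_lvl {e f : TE n m} (h : lvl e < lvl f) :
    Good (ps T px e) (pt T px e) (ps T px f) (pt T px f) := by
  obtain ⟨a1, a2, a3, a4⟩ := bounds T px e
  obtain ⟨b1, b2, b3, b4⟩ := bounds T px f
  have hl : (lvl e : ℝ) + 1 ≤ lvl f := by exact_mod_cast h
  cases he : isWall e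
  · cases hf : isWall f
    · refine good_y_le (3 * (lvl e : ℝ) + 1) a3 a4 (bounds_ne T px e he) ?_ ?_ (bounds_ne T px f hf)
        <;> linarith
    · obtain ⟨c1, c2⟩ := bounds_wall T px f hf
      refine good_y_lt (3 * (lvl e : ℝ) + 1) a3 a4 ?_ ?_ <;> linarith
  · obtain ⟨c1, c2⟩ := bounds_wall T px e he
    refine good_y_lt (3 * (lvl e : ℝ)) c1.le c2.le ?_ ?_ <;> linarith

/-- rank of a kind of edges -/
def rk : TE n m → ℕ
  | .lo _ => 0
  | .flo _ => 1
  | .hi _ => 2
  | .fhi _ => 3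
  | .fseg _ _ => 4
  | .fup _ _ => 5
  | .up _ _ => 6
  | .wall _ _ => 7
  | .blk _ _ _ => 8
  | .con _ _ => 9
  | .tie _ _ => 10
  | .ftie _ _ => 11
  | .wtie _ => 12
  | .seg _ _ => 13

variable {T px}

theorem X_ne (hg : GoodPos T px) (x : Fin n) (s : Bool) :
    (px x : ℝ) ≠ (if s then (n : ℝ) + 1 else 0) := by
  have h1 : (1 : ℝ) ≤ px x := by exact_mod_cast hg.pos x
  have h2 : (px x : ℝ) ≤ n := by exact_mod_cast hg.le x
  cases s <;> simp only [Bool.false_eq_true, if_true, if_false] <;> intro h <;> linarith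

theorem half_ne (x : ℕ) : (x : ℝ) ≠ 1 / 2 := by
  intro h
  have : ((2 * x : ℕ) : ℝ) = ((1 : ℕ) : ℝ) := by push_cast; linarith
  have h2 : 2 * x = 1 := by exact_mod_cast this
  omega

theorem Xhalf_ne (n : ℕ) (s : Bool) : (if s then (n : ℝ) + 1 else 0) ≠ 1 / 2 := by
  cases s
  · norm_num
  · have := half_ne (n + 1)
    push_cast at this
    simpa using this

theorem XX_ne (n : ℕ) {s t : Bool} (h : s ≠ t) :
    (if s then (n : ℝ) + 1 else 0) ≠ (if t then (n : ℝ) + 1 else 0) := by
  have : (n : ℝ) + 1 ≠ 0 := by positivity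
  cases s <;> cases t <;> simp_all
  exact Ne.symm this


theorem Xx (hg : GoodPos T px) (x : Fin n) : (1 : ℝ) ≤ px x ∧ (px x : ℝ) ≤ n := by
  have h1 : (1 : ℝ) ≤ px x := by exact_mod_cast hg.pos x
  have h2 : (px x : ℝ) ≤ n := by exact_mod_cast hg.le x
  exact ⟨h1, h2⟩

/-- a vertical segment on the frame and a segment between -/
theorem good_frame {s : Bool} {y1 y2 : ℝ} {p q : Pt} (hp : 0 < p.1) (hp' : p.1 < (n : ℝ) + 1)
    (hq : 0 < q.1) (hq' : q.1 < (n : ℝ) + 1) :
    Good ((if s then (n : ℝ) + 1 else 0), y1) ((if s then (n : ℝ) + 1 else 0), y2) p q := by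
  cases s
  · refine good_x_lt 0 ?_ ?_ hp hq <;> simp
  · have h1 : max p.1 q.1 < (n : ℝ) + 1 := max_lt hp' hq'
    refine (good_x_lt (max p.1 q.1) (le_max_left _ _) (le_max_right _ _) ?_ ?_).symm <;>
      simpa using ⟨hp', hq'⟩

theorem half (hg : GoodPos T px) (e f : TE n m) (hr : rk e ≤ rk f) (hl : lvl e = lvl f) (hne : e ≠ f)
    (hF : Forb (ty e) (ty f)) : Good (ps T px e) (pt T px e) (ps T px f) (pt T px f) := by
  have hn0 : (0 : ℝ) ≤ n := Nat.cast_nonneg n
  have hn : (1 : ℝ) ≤ (n : ℝ) + 1 := by linarith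
  have lo1 : ∀ x, ps T px (.lo x) = (0, 0) := fun x => rfl
  have lo2 : ∀ x, pt T px (.lo x) = ((px x : ℝ), 1) := fun x => by simp [pt, ttgt, tpos]
  have flo1 : ∀ s, ps T px (.flo s) = (0, 0) := fun x => rfl
  have flo2 : ∀ s : Bool, pt T px (.flo s) = ((if s then (n : ℝ) + 1 else 0), 1) := fun s => by
    simp [pt, ttgt, tpos]
  have hi1 : ∀ x, ps T px (.hi x) = ((px x : ℝ), 3 * (m : ℝ) + 1) := fun x => by
    simp [ps, tsrc, tpos]
  have hi2 : ∀ x, pt T px (.hi x) = (0, 3 * (m : ℝ) + 2) := fun x => rfl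
  have fhi1 : ∀ s : Bool, ps T px (.fhi s) = ((if s then (n : ℝ) + 1 else 0), 3 * (m : ℝ) + 1) :=
    fun x => by simp [ps, tsrc, tpos]
  have fhi2 : ∀ s, pt T px (.fhi s) = (0, 3 * (m : ℝ) + 2) := fun x => rfl
  have seg1 : ∀ j x, ps T px (.seg j x) = ((px x : ℝ), 3 * (j.val : ℝ) + 1) := fun j x => rfl
  have seg2 : ∀ j x, pt T px (.seg j x) = ((px x : ℝ), 3 * (j.val : ℝ) + 2) := fun j x => rfl
  have up1 : ∀ j x, ps T px (.up j x) = ((px x : ℝ), 3 * (j.val : ℝ) + 2) := fun j x => rfl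
  have up2 : ∀ j x, pt T px (.up j x) = ((px x : ℝ), 3 * (j.val : ℝ) + 4) := fun j x => by
    simp only [pt, ttgt, tpos, Fin.val_succ]
    push_cast
    congr 1
    ring
  have fseg1 : ∀ (j : Fin m) (s : Bool), ps T px (.fseg j s) =
    ((if s then (n : ℝ) + 1 else 0), 3 * (j.val : ℝ) + 1) := fun j x => rfl
  have fseg2 : ∀ (j : Fin m) (s : Bool), pt T px (.fseg j s) =
    ((if s then (n : ℝ) + 1 else 0), 3 * (j.val : ℝ) + 3) := fun j x => rfl
  have fup1 : ∀ (j : Fin m) (s : Bool), ps T px (.fup j s) =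
    ((if s then (n : ℝ) + 1 else 0), 3 * (j.val : ℝ) + 3) := fun j x => rfl
  have fup2 : ∀ (j : Fin m) (s : Bool), pt T px (.fup j s) =
    ((if s then (n : ℝ) + 1 else 0), 3 * (j.val : ℝ) + 4) := fun j x => by
    simp only [pt, ttgt, tpos, Fin.val_succ]
    push_cast
    congr 1
    ring
  have wall1 : ∀ (j : Fin m) (s : Bool), ps T px (.wall j s) =
    ((if s then (n : ℝ) + 1 else 0), 3 * (j.val : ℝ) + 3) := fun j x => rfl
  have wall2 : ∀ (j : Fin m) (s : Bool), pt T px (.wall j s) = (1 / 2, 3 * (j.val : ℝ) + 3) :=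
    fun j x => rfl
  have tie1 : ∀ j x, ps T px (.tie j x) = (1 / 2, 3 * (j.val : ℝ) + 3 / 2) := fun j x => rfl
  have tie2 : ∀ j x, pt T px (.tie j x) = ((px x : ℝ), 3 * (j.val : ℝ) + 1) := fun j x => rfl
  have ftie1 : ∀ j x, ps T px (.ftie j x) = (1 / 2, 3 * (j.val : ℝ) + 3 / 2) := fun j x => rfl
  have ftie2 : ∀ (j : Fin m) (s : Bool), pt T px (.ftie j s) =
    ((if s then (n : ℝ) + 1 else 0), 3 * (j.val : ℝ) + 1) := fun j x => rfl
  have wtie1 : ∀ j, ps T px (.wtie j) = (1 / 2, 3 * (j.val : ℝ) + 3 / 2) := fun j => rfl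
  have wtie2 : ∀ j, pt T px (.wtie j) = (1 / 2, 3 * (j.val : ℝ) + 3) := fun j => rfl
  have con1 : ∀ j s, ps T px (.con j s) = ((px (en T j s) : ℝ), 3 * (j.val : ℝ) + 1) :=
    fun j x => rfl
  have con2 : ∀ j s, pt T px (.con j s) = ((px (T j 1) : ℝ), 3 * (j.val : ℝ) + 2) := fun j x => rfl
  cases e <;> cases f <;>
    first
    | (exfalso; simp only [rk] at hr; omega)
    | (exfalso; revert hF; simp only [ty]; decide)
    | (exfalso; simp only [lvl] at hl; omega)
    | (exfalso; simp only [lvl] at hl; have := Fin.is_lt ‹Fin m›; omega)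
    | skip
  case lo.lo x y =>
    rw [lo1, lo2, lo1, lo2]
    exact good_lo fun h => hne (congrArg _ (hg.inj (by exact_mod_cast h)))
  case lo.flo x s =>
    rw [lo1, lo2, flo1, flo2]
    exact good_lo (X_ne hg x s)
  case hi.hi x y =>
    rw [hi1, hi2, hi1, hi2]
    exact good_hi fun h => hne (congrArg _ (hg.inj (by exact_mod_cast h)))
  case hi.fhi x s =>
    rw [hi1, hi2, fhi1, fhi2]
    exact good_hi (X_ne hg x s)
  case flo.flo s t =>
    rw [flo1, flo2, flo1, flo2]
    exact good_lo (XX_ne n fun h => hne (congrArg _ h))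
  case fhi.fhi s t =>
    rw [fhi1, fhi2, fhi1, fhi2]
    exact good_hi (XX_ne n fun h => hne (congrArg _ h))
  case seg.seg j x j' y =>
    obtain rfl : j = j' := Fin.ext (by simp only [lvl] at hl; omega)
    rw [seg1, seg2, seg1, seg2]
    refine good_vert fun h => hne ?_
    have h' : px x = px y := by exact_mod_cast h
    rw [hg.inj h']
  case up.up j x j' y =>
    obtain rfl : j = j' := Fin.ext (by simp only [lvl] at hl; omega)
    rw [up1, up2, up1, up2]
    refine good_vert fun h => hne ?_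
    have h' : px x = px y := by exact_mod_cast h
    rw [hg.inj h']
  case fseg.fseg j s j' t =>
    obtain rfl : j = j' := Fin.ext (by simp only [lvl] at hl; omega)
    rw [fseg1, fseg2, fseg1, fseg2]
    exact good_vert (XX_ne n fun h => hne (by rw [h]))
  case fup.fup j s j' t =>
    obtain rfl : j = j' := Fin.ext (by simp only [lvl] at hl; omega)
    rw [fup1, fup2, fup1, fup2]
    exact good_vert (XX_ne n fun h => hne (by rw [h]))
  case fseg.seg j s j' x =>
    obtain rfl : j = j' := Fin.ext (by simp only [lvl] at hl; omega)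
    rw [fseg1, fseg2, seg1, seg2]
    exact good_vert (X_ne hg x s).symm
  case fseg.up j s j' x =>
    obtain rfl : j = j' := Fin.ext (by simp only [lvl] at hl; omega)
    rw [fseg1, fseg2, up1, up2]
    exact good_vert (X_ne hg x s).symm
  case fup.up j s j' x =>
    obtain rfl : j = j' := Fin.ext (by simp only [lvl] at hl; omega)
    rw [fup1, fup2, up1, up2]
    exact good_vert (X_ne hg x s).symm
  case up.wtie j x j' =>
    obtain rfl : j = j' := Fin.ext (by simp only [lvl] at hl; omega)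
    rw [up1, up2, wtie1, wtie2]
    exact good_vert (half_ne _)
  case fseg.wtie j s j' =>
    obtain rfl : j = j' := Fin.ext (by simp only [lvl] at hl; omega)
    rw [fseg1, fseg2, wtie1, wtie2]
    exact good_vert (Xhalf_ne n s)
  case fseg.tie j s j' x =>
    obtain rfl : j = j' := Fin.ext (by simp only [lvl] at hl; omega)
    rw [fseg1, fseg2, tie1, tie2]
    obtain ⟨h1, h2⟩ := Xx hg x
    apply good_frame <;> dsimp only <;> linarith
  case fseg.ftie j s j' t =>
    obtain rfl : j = j' := Fin.ext (by simp only [lvl] at hl; omega)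
    rw [fseg1, fseg2, ftie1, ftie2]
    exact good_fseg_ftie hn s t
  case fseg.wall j s j' t =>
    obtain rfl : j = j' := Fin.ext (by simp only [lvl] at hl; omega)
    rw [fseg1, fseg2, wall1, wall2]
    exact good_fseg_wall hn s t
  case fup.wall j s j' t =>
    obtain rfl : j = j' := Fin.ext (by simp only [lvl] at hl; omega)
    rw [fup1, fup2, wall1, wall2]
    exact good_fup_wall hn s t
  case wall.wtie j s j' =>
    obtain rfl : j = j' := Fin.ext (by simp only [lvl] at hl; omega)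
    rw [wall1, wall2, wtie1, wtie2]
    exact good_wall_wtie hn s
  case fseg.blk j s j' t k =>
    obtain rfl : j = j' := Fin.ext (by simp only [lvl] at hl; omega)
    rw [fseg1, fseg2, blk_ps, blk_pt]
    obtain ⟨h1, h2⟩ := Xx hg (en T j t)
    obtain ⟨x1, x2, x3, x4⟩ := bl_x (px (en T j t)) (3 * (j.val : ℝ)) k
    apply good_frame <;> linarith
  case fseg.con j s j' t =>
    obtain rfl : j = j' := Fin.ext (by simp only [lvl] at hl; omega)
    rw [fseg1, fseg2, con1, con2]
    obtain ⟨h1, h2⟩ := Xx hg (en T j t)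
    obtain ⟨h3, h4⟩ := Xx hg (T j 1)
    apply good_frame <;> dsimp only <;> linarith
  case blk.seg j s k j' x =>
    obtain rfl : j = j' := Fin.ext (by simp only [lvl] at hl; omega)
    rw [blk_ps, blk_pt, seg1, seg2]
    exact good_blk_seg k
  case up.seg j x j' y =>
    obtain rfl : j = j' := Fin.ext (by simp only [lvl] at hl; omega)
    rw [up1, up2, seg1, seg2]
    refine (good_y_le (3 * (j.val : ℝ) + 2) ?_ ?_ ?_ ?_ ?_ ?_).symm <;> dsimp only <;>
      first | linarith | (intro hh; linarith)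
  case up.tie j x j' y =>
    obtain rfl : j = j' := Fin.ext (by simp only [lvl] at hl; omega)
    rw [up1, up2, tie1, tie2]
    refine (good_y_le (3 * (j.val : ℝ) + 2) ?_ ?_ ?_ ?_ ?_ ?_).symm <;> dsimp only <;>
      first | linarith | (intro hh; linarith)
  case up.ftie j x j' s =>
    obtain rfl : j = j' := Fin.ext (by simp only [lvl] at hl; omega)
    rw [up1, up2, ftie1, ftie2]
    refine (good_y_le (3 * (j.val : ℝ) + 2) ?_ ?_ ?_ ?_ ?_ ?_).symm <;> dsimp only <;>
      first | linarith | (intro hh; linarith)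
  case up.con j x j' s =>
    obtain rfl : j = j' := Fin.ext (by simp only [lvl] at hl; omega)
    rw [up1, up2, con1, con2]
    refine (good_y_le (3 * (j.val : ℝ) + 2) ?_ ?_ ?_ ?_ ?_ ?_).symm <;> dsimp only <;>
      first | linarith | (intro hh; linarith)
  case fseg.fup j s j' t =>
    obtain rfl : j = j' := Fin.ext (by simp only [lvl] at hl; omega)
    rw [fseg1, fseg2, fup1, fup2]
    refine good_y_le (3 * (j.val : ℝ) + 3) ?_ ?_ ?_ ?_ ?_ ?_ <;> dsimp only <;>
      first | linarith | (intro hh; linarith)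
  case fup.seg j s j' x =>
    obtain rfl : j = j' := Fin.ext (by simp only [lvl] at hl; omega)
    rw [fup1, fup2, seg1, seg2]
    refine (good_y_le (3 * (j.val : ℝ) + 3) ?_ ?_ ?_ ?_ ?_ ?_).symm <;> dsimp only <;>
      first | linarith | (intro hh; linarith)
  case fup.tie j s j' x =>
    obtain rfl : j = j' := Fin.ext (by simp only [lvl] at hl; omega)
    rw [fup1, fup2, tie1, tie2]
    refine (good_y_le (3 * (j.val : ℝ) + 3) ?_ ?_ ?_ ?_ ?_ ?_).symm <;> dsimp only <;>
      first | linarith | (intro hh; linarith)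
  case fup.ftie j s j' x =>
    obtain rfl : j = j' := Fin.ext (by simp only [lvl] at hl; omega)
    rw [fup1, fup2, ftie1, ftie2]
    refine (good_y_le (3 * (j.val : ℝ) + 3) ?_ ?_ ?_ ?_ ?_ ?_).symm <;> dsimp only <;>
      first | linarith | (intro hh; linarith)
  case fup.wtie j s j' =>
    obtain rfl : j = j' := Fin.ext (by simp only [lvl] at hl; omega)
    rw [fup1, fup2, wtie1, wtie2]
    refine (good_y_le (3 * (j.val : ℝ) + 3) ?_ ?_ ?_ ?_ ?_ ?_).symm <;> dsimp only <;>
      first | linarith | (intro hh; linarith)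
  case fup.con j s j' x =>
    obtain rfl : j = j' := Fin.ext (by simp only [lvl] at hl; omega)
    rw [fup1, fup2, con1, con2]
    refine (good_y_le (3 * (j.val : ℝ) + 3) ?_ ?_ ?_ ?_ ?_ ?_).symm <;> dsimp only <;>
      first | linarith | (intro hh; linarith)
  case wall.seg j s j' x =>
    obtain rfl : j = j' := Fin.ext (by simp only [lvl] at hl; omega)
    rw [wall1, wall2, seg1, seg2]
    refine (good_y_lt (3 * (j.val : ℝ) + 2) ?_ ?_ ?_ ?_).symm <;> dsimp only <;>
      first | linarith | (intro hh; linarith)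
  case wall.tie j s j' x =>
    obtain rfl : j = j' := Fin.ext (by simp only [lvl] at hl; omega)
    rw [wall1, wall2, tie1, tie2]
    refine (good_y_lt (3 * (j.val : ℝ) + 2) ?_ ?_ ?_ ?_).symm <;> dsimp only <;>
      first | linarith | (intro hh; linarith)
  case wall.ftie j s j' x =>
    obtain rfl : j = j' := Fin.ext (by simp only [lvl] at hl; omega)
    rw [wall1, wall2, ftie1, ftie2]
    refine (good_y_lt (3 * (j.val : ℝ) + 2) ?_ ?_ ?_ ?_).symm <;> dsimp only <;>
      first | linarith | (intro hh; linarith)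
  case wall.con j s j' x =>
    obtain rfl : j = j' := Fin.ext (by simp only [lvl] at hl; omega)
    rw [wall1, wall2, con1, con2]
    refine (good_y_lt (3 * (j.val : ℝ) + 2) ?_ ?_ ?_ ?_).symm <;> dsimp only <;>
      first | linarith | (intro hh; linarith)
  case up.blk j x j' t k =>
    obtain rfl : j = j' := Fin.ext (by simp only [lvl] at hl; omega)
    rw [up1, up2, blk_ps, blk_pt]
    obtain ⟨y1, y2, y3, y4, y5⟩ := bl_y (px (en T j t)) (3 * (j.val : ℝ)) k
    refine (good_y_le (3 * (j.val : ℝ) + 2) y3 y4 y5 ?_ ?_ ?_).symm <;> dsimp only <;>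
      first | linarith | (intro hh; linarith)
  case fup.blk j s j' t k =>
    obtain rfl : j = j' := Fin.ext (by simp only [lvl] at hl; omega)
    rw [fup1, fup2, blk_ps, blk_pt]
    obtain ⟨y1, y2, y3, y4, y5⟩ := bl_y (px (en T j t)) (3 * (j.val : ℝ)) k
    refine (good_y_lt (3 * (j.val : ℝ) + 2) y3 y4 ?_ ?_).symm <;> dsimp only <;> linarith
  case wall.blk j s j' t k =>
    obtain rfl : j = j' := Fin.ext (by simp only [lvl] at hl; omega)
    rw [wall1, wall2, blk_ps, blk_pt]
    obtain ⟨y1, y2, y3, y4, y5⟩ := bl_y (px (en T j t)) (3 * (j.val : ℝ)) k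
    refine (good_y_lt (3 * (j.val : ℝ) + 2) y3 y4 ?_ ?_).symm <;> dsimp only <;> linarith
  case blk.blk j s k j' t l =>
    obtain rfl : j = j' := Fin.ext (by simp only [lvl] at hl; omega)
    rw [blk_ps, blk_pt, blk_ps, blk_pt]
    by_cases hst : s = t
    · subst hst
      have hkl : k ≠ l := fun h => hne (by rw [h])
      cases k <;> cases l
      · exact absurd rfl hkl
      · refine good_y_le (3 * (j.val : ℝ) + 3 / 2) ?_ ?_ ?_ ?_ ?_ ?_ <;>
          simp only [bl, Bool.false_eq_true, if_true, if_false] <;> first | linarith | (intro hh; linarith)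
      · refine (good_y_le (3 * (j.val : ℝ) + 3 / 2) ?_ ?_ ?_ ?_ ?_ ?_).symm <;>
          simp only [bl, Bool.false_eq_true, if_true, if_false] <;> first | linarith | (intro hh; linarith)
      · exact absurd rfl hkl
    · refine good_blk_blk ?_ k l
      have hmid := hg.mid j
      cases s <;> cases t <;> simp only [en, Bool.false_eq_true, if_true, if_false] at hst ⊢
      · exact absurd trivial hst
      · omega
      · omega
      · exact absurd trivial hst
  case blk.con j s k j' t =>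
    obtain rfl : j = j' := Fin.ext (by simp only [lvl] at hl; omega)
    rw [blk_ps, blk_pt, con1, con2]
    have hmid := hg.mid j
    by_cases hst : s = t
    · subst hst
      refine good_blk_con ?_ k
      cases s <;> simp only [en, Bool.false_eq_true, if_true, if_false] <;> omega
    · refine good_blk_con' ?_ k
      cases s <;> cases t <;> simp only [en, Bool.false_eq_true, if_true, if_false] at hst ⊢
      · exact absurd trivial hst
      · omega
      · omega
      · exact absurd trivial hst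

theorem good (hg : GoodPos T px) (e f : TE n m) (hne : e ≠ f)
    (hF : Forb (ty e) (ty f)) : Good (ps T px e) (pt T px e) (ps T px f) (pt T px f) := by
  rcases Nat.lt_trichotomy (lvl e) (lvl f) with h | h | h
  · exact good_lvl T px h
  · rcases le_total (rk e) (rk f) with hr | hr
    · exact half hg e f hr h hne hF
    · exact (half hg f e hr h.symm hne.symm hF.symm).symm
  · exact (good_lvl T px h).symm

/-- twice the height of a vertex -/
def H2 : TV n m → ℕ
  | .t => 0
  | .b => 6 * m + 4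
  | .A j _ => 6 * j + 2
  | .B j _ => 6 * j + 4
  | .FA j _ => 6 * j + 2
  | .FB j _ => 6 * j + 6
  | .u j => 6 * j + 3
  | .w j => 6 * j + 6
  | .z j _ => 6 * j + 3

theorem height (v : TV n m) : (H2 v : ℝ) = 2 * (tpos T px v).2 := by
  cases v <;> simp only [H2, tpos] <;> push_cast <;> ring

theorem tpos_inj (hg : GoodPos T px) : Function.Injective (tpos T px) := by
  intro v v' h
  have h2 : H2 v = H2 v' := by
    have : (H2 v : ℝ) = H2 v' := by rw [height (T := T) (px := px), height (T := T) (px := px), h]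
    exact_mod_cast this
  have h1 : (tpos T px v).1 = (tpos T px v').1 := by rw [h]
  clear h
  cases v <;> cases v' <;>
    first
    | rfl
    | (exfalso; simp only [H2] at h2; omega)
    | (exfalso; simp only [H2] at h2; have := Fin.is_lt ‹Fin m›; omega)
    | skip
  case A.A j x j' y =>
    obtain rfl : j = j' := Fin.ext (by simp only [H2] at h2; omega)
    have h' : px x = px y := by simp only [tpos] at h1; exact_mod_cast h1
    rw [hg.inj h']
  case B.B j x j' y =>
    obtain rfl : j = j' := Fin.ext (by simp only [H2] at h2; omega)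
    have h' : px x = px y := by simp only [tpos] at h1; exact_mod_cast h1
    rw [hg.inj h']
  case A.FA j x j' s =>
    exact absurd h1 (X_ne hg x s)
  case FA.A j s j' x =>
    exact absurd h1.symm (X_ne hg x s)
  case FA.FA j s j' t =>
    obtain rfl : j = j' := Fin.ext (by simp only [H2] at h2; omega)
    by_cases hst : s = t
    · rw [hst]
    · exact absurd h1 (XX_ne n hst)
  case FB.FB j s j' t =>
    obtain rfl : j = j' := Fin.ext (by simp only [H2] at h2; omega)
    by_cases hst : s = t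
    · rw [hst]
    · exact absurd h1 (XX_ne n hst)
  case FB.w j s j' =>
    exact absurd h1 (Xhalf_ne n s)
  case w.FB j j' s =>
    exact absurd h1.symm (Xhalf_ne n s)
  case u.u j j' =>
    obtain rfl : j = j' := Fin.ext (by simp only [H2] at h2; omega)
    rfl
  case w.w j j' =>
    obtain rfl : j = j' := Fin.ext (by simp only [H2] at h2; omega)
    rfl
  case u.z j j' s =>
    simp only [tpos] at h1
    have := (Xx hg (en T j' s)).1
    linarith
  case z.u j s j' =>
    simp only [tpos] at h1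
    have := (Xx hg (en T j s)).1
    linarith
  case z.z j s j' t =>
    obtain rfl : j = j' := Fin.ext (by simp only [H2] at h2; omega)
    simp only [tpos] at h1
    have h' : px (en T j s) = px (en T j t) := by
      have : (px (en T j s) : ℝ) = px (en T j t) := by linarith
      exact_mod_cast this
    have hmid := hg.mid j
    cases s <;> cases t <;> simp only [en, Bool.false_eq_true, if_true, if_false] at h' ⊢ <;> omega

end

theorem tpl : TplStmt := by
  intro n m T px hg
  refine ⟨tpos_inj hg, ?_⟩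
  intro e f hne hF x hx
  obtain ⟨⟨s, hs, hxs⟩, ⟨s', hs', hxs'⟩⟩ : (∃ s ∈ Set.Icc (0 : ℝ) 1, ps T px e + s • (pt T px e - ps T px e) = x) ∧
      (∃ s ∈ Set.Icc (0 : ℝ) 1, ps T px f + s • (pt T px f - ps T px f) = x) := by
    rw [segment_eq_image', segment_eq_image'] at hx
    exact hx
  have hfst := congrArg Prod.fst (hxs.trans hxs'.symm)
  have hsnd := congrArg Prod.snd (hxs.trans hxs'.symm)
  simp only [Prod.fst_add, Prod.smul_fst, Prod.fst_sub, smul_eq_mul] at hfst
  simp only [Prod.snd_add, Prod.smul_snd, Prod.snd_sub, smul_eq_mul] at hsnd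
  obtain ⟨h1, h2⟩ := good hg e f hne hF s s' hs.1 hs.2 hs'.1 hs'.2 hfst hsnd
  have e1 : ∃ v, (v = tsrc T e ∨ v = ttgt T e) ∧ x = tpos T px v := by
    rcases h1 with h1 | h1
    · exact ⟨_, Or.inl rfl, by rw [← hxs, h1, zero_smul, add_zero]; rfl⟩
    · exact ⟨_, Or.inr rfl, by rw [← hxs, h1, one_smul, add_sub_cancel]; rfl⟩
  have e2 : ∃ v, (v = tsrc T f ∨ v = ttgt T f) ∧ x = tpos T px v := by
    rcases h2 with h1 | h1
    · exact ⟨_, Or.inl rfl, by rw [← hxs', h1, zero_smul, add_zero]; rfl⟩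
    · exact ⟨_, Or.inr rfl, by rw [← hxs', h1, one_smul, add_sub_cancel]; rfl⟩
  obtain ⟨v, hv, hxv⟩ := e1
  obtain ⟨w, hw, hxw⟩ := e2
  have hvw : v = w := tpos_inj hg (hxv.symm.trans hxw)
  exact ⟨v, hv, hvw ▸ hw, hxv⟩

end Pool.Agent.LCR.H92
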